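import Pool.Agent.T6.H69.AF.Unr
import Pool.Agent.T6.H53.CT.Scale
set_option autoImplicit false

/-!
Clearing the denominators of an arrangement over a number field; the polynomial of the arrangement is
not constant.
-/

namespace Pool.Agent.T6.H69.AF

open Pool.Agent.TH826.GA (cm vtx al be lf eval_vtx)

open Pool.Agent.TH577.UA (UMod Distinct aeqn irreducible_aeqn)

open Pool.Agent.Y797.IV (degM)

open Pool.Agent.T6.H53.CT (exists_nat_multiple)

section scale

variable {K : Type*} [Field K] {n m : ℕ}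

theorem exists_adm [NumberField K] (c : Fin (m + 1) → Fin (n + 1) → K) (a : Fin (m + 1) → K) :
    ∃ D : K, Adm c a D := by
  classical
  obtain ⟨N, hN0, hN⟩ := exists_nat_multiple
    ((Finset.univ.image fun p : (Fin (n + 1) → Fin (m + 1)) × Fin (n + 1) => vtx c a p.1 p.2) ∪
      Finset.univ.image fun p : (Fin (n + 1) → Fin (m + 1)) × Fin (m + 1) =>
        ∑ j, c p.2 j * vtx c a p.1 j - a p.2)
  refine ⟨(N : K), Nat.cast_ne_zero.2 hN0, isIntegral_natCast _, fun T _ j => ?_, fun T _ e => ?_⟩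
  · exact hN _ (Finset.mem_union_left _ (Finset.mem_image.2 ⟨(T, j), Finset.mem_univ _, rfl⟩))
  · exact hN _ (Finset.mem_union_right _ (Finset.mem_image.2 ⟨(T, e), Finset.mem_univ _, rfl⟩))

theorem adm_one {c : Fin (m + 1) → Fin (n + 1) → K} {a : Fin (m + 1) → K} (hA : UMod c a) :
    Adm c a 1 := by
  refine ⟨one_ne_zero, isIntegral_one, fun T _ j => ?_, fun T _ e => ?_⟩
  · rw [one_mul]
    unfold vtx
    exact IsIntegral.sum _ fun i _ => (hA.adj_int T _ _).mul (hA.int_a _)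
  · rw [one_mul, eval_vtx]
    exact (IsIntegral.sum _ fun l _ => (hA.al_int T _ _).mul (hA.int_a _)).sub (hA.int_a _)

/-- The number `D` and the divisor `M` of `λ`. -/
theorem exists_scaling [NumberField K] (c : Fin (m + 1) → Fin (n + 1) → K)
    (a : Fin (m + 1) → K) (g : MvPolynomial (Fin (n + 1)) K) (w : Fin (m + 1) → ℕ) :
    ∃ M : ℕ, M ≠ 0 ∧ (UMod c a → (∀ k, IsIntegral ℤ (g.coeff k)) → M = 1) ∧
      ∃ D : K, Adm c a D ∧ ∀ lam : K, IsIntegral ℤ (lam / M) →
        ∀ k, IsIntegral ℤ (lam * g.coeff k / D ^ degM g w) := by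
  classical
  by_cases hI : UMod c a ∧ ∀ k, IsIntegral ℤ (g.coeff k)
  · refine ⟨1, one_ne_zero, fun _ _ => rfl, 1, adm_one hI.1, fun lam hlam k => ?_⟩
    rw [Nat.cast_one, div_one] at hlam
    rw [one_pow, div_one]
    exact hlam.mul (hI.2 k)
  · obtain ⟨D, hD⟩ := exists_adm c a
    obtain ⟨M, hM0, hM⟩ := exists_nat_multiple
      (g.support.image fun k => g.coeff k / D ^ degM g w)
    refine ⟨M, hM0, fun h1 h2 => absurd ⟨h1, h2⟩ hI, D, hD, fun lam hlam k => ?_⟩
    by_cases hk : g.coeff k = 0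
    · rw [hk, mul_zero, zero_div]
      exact isIntegral_zero
    · have h1 := hM _ (Finset.mem_image.2 ⟨k, MvPolynomial.mem_support_iff.2 hk, rfl⟩)
      have hM' : (M : K) ≠ 0 := Nat.cast_ne_zero.2 hM0
      have e : lam * g.coeff k / D ^ degM g w =
          (lam / M) * ((M : K) * (g.coeff k / D ^ degM g w)) := by
        rw [← mul_assoc, div_mul_cancel₀ _ hM', mul_div_assoc]
      rw [e]
      exact hlam.mul h1

end scale

section const

variable {K : Type*} [Field K] {n m : ℕ} {c : Fin (m + 1) → Fin (n + 1) → K}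
  {a : Fin (m + 1) → K} {g : MvPolynomial (Fin (n + 1)) K} {w : Fin (m + 1) → ℕ}

theorem coeff_lf (e : Fin (m + 1)) (j : Fin (n + 1)) :
    (lf c a e).coeff (Finsupp.single j 1) = c e j := by
  classical
  unfold lf
  rw [MvPolynomial.coeff_sub, MvPolynomial.coeff_sum, MvPolynomial.coeff_C,
    if_neg (fun h => one_ne_zero (Finsupp.single_eq_zero.1 h.symm)), sub_zero,
    Finset.sum_eq_single j]
  · rw [MvPolynomial.coeff_C_mul, MvPolynomial.coeff_X, if_pos rfl, mul_one]
  · intro i _ hi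
    rw [MvPolynomial.coeff_C_mul, MvPolynomial.coeff_X,
      if_neg fun h => hi ((Finsupp.single_left_inj one_ne_zero).1 h), mul_zero]
  · intro h
    exact absurd (Finset.mem_univ _) h

theorem coeff_lf_zero (e : Fin (m + 1)) : (lf c a e).coeff 0 = - a e := by
  classical
  unfold lf
  rw [MvPolynomial.coeff_sub, MvPolynomial.coeff_sum, MvPolynomial.coeff_C, if_pos rfl,
    Finset.sum_eq_zero, zero_sub]
  intro i _
  rw [MvPolynomial.coeff_C_mul, MvPolynomial.coeff_X,
    if_neg fun h => one_ne_zero (Finsupp.single_eq_zero.1 h), mul_zero]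

theorem row_ne_zero {T : Fin (n + 1) → Fin (m + 1)} (hT : (cm c T).det ≠ 0) (i : Fin (n + 1)) :
    ∃ j, c (T i) j ≠ 0 := by
  by_contra h
  push Not at h
  exact hT (Matrix.det_eq_zero_of_row_eq_zero i fun j => h j)

theorem lf_ne_zero (hR : ∃ T : Fin (n + 1) → Fin (m + 1), (cm c T).det ≠ 0)
    (hD : Distinct c a) (e : Fin (m + 1)) : lf c a e ≠ 0 := by
  intro h
  have h1 : ∀ j, c e j = 0 := fun j => by
    rw [← coeff_lf (c := c) (a := a) e j, h, MvPolynomial.coeff_zero]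
  have h2 : a e = 0 := by
    have := coeff_lf_zero (c := c) (a := a) e
    rw [h, MvPolynomial.coeff_zero] at this
    exact neg_eq_zero.1 this.symm
  obtain ⟨T, hT⟩ := hR
  obtain ⟨j, hj⟩ := row_ne_zero hT 0
  have hne : e ≠ T 0 := by
    rintro rfl
    exact hj (h1 j)
  exact hD e (T 0) hne 0 ⟨fun j => by rw [h1, zero_mul], by rw [h2, zero_mul]⟩

theorem aP_ne_zero (hR : ∃ T : Fin (n + 1) → Fin (m + 1), (cm c T).det ≠ 0)
    (hD : Distinct c a) (hg : g ≠ 0) : aP g w c a ≠ 0 :=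
  mul_ne_zero hg (Finset.prod_ne_zero_iff.2 fun e _ => pow_ne_zero _ (lf_ne_zero hR hD e))

theorem aP_ne_C (hR : ∃ T : Fin (n + 1) → Fin (m + 1), (cm c T).det ≠ 0)
    (hD : Distinct c a) (hg : g ≠ 0) (y : K) : aP g w c a ≠ MvPolynomial.C y := by
  intro h
  have hy : y ≠ 0 := by
    rintro rfl
    exact aP_ne_zero hR hD hg (by rw [h, map_zero])
  obtain ⟨T, hT⟩ := hR
  obtain ⟨j, hj⟩ := row_ne_zero hT 0
  have h1 := lf_dvd g w c a (T 0)
  rw [h] at h1
  have h2 : IsUnit (lf c a (T 0)) := isUnit_of_dvd_unit h1 ((IsUnit.mk0 y hy).map MvPolynomial.C)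
  obtain ⟨z, -, hz⟩ := MvPolynomial.isUnit_iff_eq_C_of_isReduced.1 h2
  apply hj
  rw [← coeff_lf (c := c) (a := a) (T 0) j, hz, MvPolynomial.coeff_C,
    if_neg fun h => one_ne_zero (Finsupp.single_eq_zero.1 h.symm)]

/-- For `r = 0`, `g = 1` the coordinate ring is a domain. -/
theorem isDomain_zero [Infinite K] {c : Fin (m + 1) → Fin (n + 1 + 1) → K}
    (hR : ∃ T : Fin (n + 1 + 1) → Fin (m + 1), (cm c T).det ≠ 0)
    (hD : Distinct c a) {w : Fin (m + 1) → ℕ} {e0 : Fin (m + 1)} (he0 : ∃ j, c e0 j ≠ 0)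
    (hw0 : w e0 = 0) {lam : K} (hlam : lam ≠ 0) (κ : Fin 0 → K) :
    IsDomain (FRing (aP 1 w c a) lam κ) := by
  refine isDomain_FRing_zero ?_
  have h := irreducible_aeqn hR hD he0 hw0 hlam
  exact h

end const

end Pool.Agent.T6.H69.AF
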