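import Pool.Agent.TH577.UA.Alg
set_option autoImplicit false

/-!
The hypersurfaces `∏_{j < r} (z_j² + κ_j z_j + 1) = Φ(x_0, ..., x_n) ∏_{j < r} z_j`, for polynomials
`Φ = λ P`, `r ≥ 0` (for `r = 0` the hypersurface `Φ = 1`), and the symbols of the bases of an
arrangement of hyperplanes, for `P = g ∏_e L_e ^ (w_e + 1)`.
-/

namespace Pool.Agent.T6.H69.AF

open Pool.Agent.TH826.GA (cm lf ku)

open Pool.Agent.TH577.UA (hi kap)

section Ring

variable {K : Type*} [Field K] {r n : ℕ} (P : MvPolynomial (Fin (n + 1)) K) (lam : K)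
  (κ : Fin r → K)

/-- The polynomial `Φ = λ P` in the variables `x_0, ..., x_n`. -/
noncomputable def bPhi : MvPolynomial (Fin (n + 1)) K := MvPolynomial.C lam * P

/-- The polynomial `Φ` as a polynomial in the variables `z_0, ..., z_{r-1}, x_0, ..., x_n`. -/
noncomputable def fPhi (r : ℕ) : MvPolynomial (Fin r ⊕ Fin (n + 1)) K :=
  MvPolynomial.rename Sum.inr (bPhi P lam)

/-- The polynomial `z_j² + κ_j z_j + 1`. -/
noncomputable def zfac (n : ℕ) (j : Fin r) : MvPolynomial (Fin r ⊕ Fin (n + 1)) K :=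
  MvPolynomial.X (Sum.inl j) ^ 2 + MvPolynomial.C (κ j) * MvPolynomial.X (Sum.inl j) + 1

/-- The product of the variables `z_j`. -/
noncomputable def zmon (K : Type*) [Field K] (r n : ℕ) : MvPolynomial (Fin r ⊕ Fin (n + 1)) K :=
  ∏ j, MvPolynomial.X (Sum.inl j)

/-- The equation `∏_j (z_j² + κ_j z_j + 1) - Φ ∏_j z_j`. -/
noncomputable def feqn : MvPolynomial (Fin r ⊕ Fin (n + 1)) K :=
  ∏ j, zfac κ n j - fPhi P lam r * zmon K r n

/-- The coordinate ring of the hypersurface `∏_j (z_j² + κ_j z_j + 1) = Φ ∏_j z_j` in the affine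
space with the coordinates `z_0, ..., z_{r-1}, x_0, ..., x_n`. -/
def FRing : Type _ := MvPolynomial (Fin r ⊕ Fin (n + 1)) K ⧸ Ideal.span {feqn P lam κ}

noncomputable instance : CommRing (FRing P lam κ) :=
  Ideal.Quotient.commRing (Ideal.span {feqn P lam κ})

/-- The polynomials as functions on the hypersurface. -/
noncomputable def fpol : MvPolynomial (Fin r ⊕ Fin (n + 1)) K →+* FRing P lam κ :=
  Ideal.Quotient.mk (Ideal.span {feqn P lam κ})

/-- The function `Φ ∏_j z_j` on the hypersurface. -/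
noncomputable def fdel : FRing P lam κ := fpol P lam κ (fPhi P lam r * zmon K r n)

/-- The polynomial `Φ ∏_j z_j T - 1`. -/
noncomputable def feqnO : Polynomial (FRing P lam κ) :=
  Polynomial.C (fdel P lam κ) * Polynomial.X - 1

/-- The coordinate ring of the open part `Φ ∏_j z_j ≠ 0` of the hypersurface: the ring obtained from
the coordinate ring of the hypersurface by adjoining `T` with `Φ ∏_j z_j T = 1`. -/
def FOpen : Type _ := AdjoinRoot (feqnO P lam κ)

noncomputable instance : CommRing (FOpen P lam κ) := AdjoinRoot.instCommRing (feqnO P lam κ)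

/-- The restriction of functions to the open part. -/
noncomputable def toF : FRing P lam κ →+* FOpen P lam κ := AdjoinRoot.of (feqnO P lam κ)

/-- The constants. -/
noncomputable def fcst : K →+* FOpen P lam κ :=
  (toF P lam κ).comp ((fpol P lam κ).comp MvPolynomial.C)

theorem fpol_feqn : fpol P lam κ (feqn P lam κ) = 0 :=
  Ideal.Quotient.eq_zero_iff_mem.2 (Ideal.subset_span rfl)

theorem isUnit_fdel : IsUnit (toF P lam κ (fdel P lam κ)) := by
  have h := AdjoinRoot.mk_self (f := feqnO P lam κ)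
  have h2 : AdjoinRoot.mk (feqnO P lam κ) (feqnO P lam κ) =
      AdjoinRoot.of (feqnO P lam κ) (fdel P lam κ) *
      AdjoinRoot.root (feqnO P lam κ) - 1 := by
    conv_lhs => rw [show AdjoinRoot.mk (feqnO P lam κ) (feqnO P lam κ) =
      AdjoinRoot.mk (feqnO P lam κ)
      (Polynomial.C (fdel P lam κ) * Polynomial.X - 1) from rfl]
    rw [map_sub, map_mul, map_one, AdjoinRoot.mk_X, AdjoinRoot.mk_C]
  rw [h2, sub_eq_zero] at h
  exact IsUnit.of_mul_eq_one _ h

theorem isUnit_fz (j : Fin r) :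
    IsUnit (toF P lam κ (fpol P lam κ (MvPolynomial.X (Sum.inl j)))) := by
  refine isUnit_of_dvd_unit (map_dvd _ (map_dvd _ ?_)) (isUnit_fdel P lam κ)
  exact Dvd.dvd.mul_left (Finset.dvd_prod_of_mem
    (fun j => (MvPolynomial.X (Sum.inl j) : MvPolynomial (Fin r ⊕ Fin (n + 1)) K))
    (Finset.mem_univ j)) _

theorem isUnit_fu {F : MvPolynomial (Fin (n + 1)) K} (h : F ∣ P) :
    IsUnit (toF P lam κ (fpol P lam κ (MvPolynomial.rename Sum.inr F))) := by
  refine isUnit_of_dvd_unit (map_dvd _ (map_dvd _ ?_)) (isUnit_fdel P lam κ)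
  refine Dvd.dvd.mul_right (map_dvd (MvPolynomial.rename Sum.inr) ?_) _
  exact Dvd.dvd.mul_left h _

/-- The unit `z_j`. -/
noncomputable def fz (j : Fin r) : (FOpen P lam κ)ˣ := (isUnit_fz P lam κ j).unit

theorem coe_fz (j : Fin r) : (fz P lam κ j : FOpen P lam κ) =
    toF P lam κ (fpol P lam κ (MvPolynomial.X (Sum.inl j))) := rfl

end Ring

section defs

variable {K : Type*} [Field K] {r n m : ℕ}

/-- The polynomial `g ∏_e L_e ^ (w_e + 1)`. -/
noncomputable def aP (g : MvPolynomial (Fin (n + 1)) K) (w : Fin (m + 1) → ℕ)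
    (c : Fin (m + 1) → Fin (n + 1) → K) (a : Fin (m + 1) → K) : MvPolynomial (Fin (n + 1)) K :=
  g * ∏ e, lf c a e ^ (w e + 1)

variable (g : MvPolynomial (Fin (n + 1)) K) (w : Fin (m + 1) → ℕ)
  (c : Fin (m + 1) → Fin (n + 1) → K) (a : Fin (m + 1) → K) (lam : K) (κ : Fin r → K)

theorem lf_dvd (e : Fin (m + 1)) : lf c a e ∣ aP g w c a :=
  Dvd.dvd.mul_left ((dvd_pow_self _ (Nat.succ_ne_zero (w e))).trans
    (Finset.dvd_prod_of_mem (fun e => lf c a e ^ (w e + 1)) (Finset.mem_univ e))) _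

/-- The unit `L_e` on the open part. -/
noncomputable def fl (e : Fin (m + 1)) : (FOpen (aP g w c a) lam κ)ˣ :=
  (isUnit_fu (aP g w c a) lam κ (lf_dvd g w c a e)).unit

theorem coe_fl (e : Fin (m + 1)) : (fl g w c a lam κ e : FOpen (aP g w c a) lam κ) =
    toF (aP g w c a) lam κ (fpol (aP g w c a) lam κ (MvPolynomial.rename Sum.inr (lf c a e))) :=
  rfl

/-- The unit `κ_i L_{T i} / L_{hi i}` on the open part. -/
noncomputable def fe (T : Fin (n + 1) → Fin (m + 1)) (i : Fin (n + 1)) :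
    (FOpen (aP g w c a) lam κ)ˣ :=
  Units.map (fcst (aP g w c a) lam κ : K →* FOpen (aP g w c a) lam κ) (ku (kap c T i)) *
    (fl g w c a lam κ (T i) / fl g w c a lam κ (hi c T i))

/-- The entries `z_0, ..., z_{r-1}` and `κ_i L_{T i} / L_{hi i}`, `i = 0, ..., n`, of the symbol of the
basis `T`. -/
noncomputable def fent (T : Fin (n + 1) → Fin (m + 1)) :
    Fin (r + (n + 1)) → (FOpen (aP g w c a) lam κ)ˣ :=
  Fin.append (fun j => fz (aP g w c a) lam κ j) fun i => fe g w c a lam κ T i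

end defs

section diff

variable {K : Type*} [Field K] {n m : ℕ}

/-- The hyperplanes `L_e = 0` are different: no form is a multiple of another one. -/
def Different (c : Fin (m + 1) → Fin (n + 1) → K) (a : Fin (m + 1) → K) : Prop :=
  ∀ e e', e ≠ e' → ∀ k : K, ¬ ((∀ j, c e j = k * c e' j) ∧ a e = k * a e')

end diff

end Pool.Agent.T6.H69.AF
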