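import Pool.Agent.T6.H69.AF.Ring
import Pool.Agent.TH333.CY.Tori
import Pool.Agent.Y797.TW.Gen
set_option autoImplicit false

/-!
Smoothness of the hypersurfaces for large `λ`; evaluation of the functions at complex points, and
tori in the hypersurfaces.
-/

namespace Pool.Agent.T6.H69.AF

open Pool.Agent.TH826.MK

open Pool.Agent.TH333.CY (pderiv_prod_eq_zero)

section deriv

variable {K : Type*} [Field K] {r n : ℕ} {P : MvPolynomial (Fin (n + 1)) K} {lam : K}
  {κ : Fin r → K}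

theorem pderiv_inl_rename (i : Fin r) (p : MvPolynomial (Fin (n + 1)) K) :
    MvPolynomial.pderiv (Sum.inl i : Fin r ⊕ Fin (n + 1))
      (MvPolynomial.rename Sum.inr p) = 0 := by
  induction p using MvPolynomial.induction_on with
  | C y => rw [MvPolynomial.rename_C, MvPolynomial.pderiv_C]
  | add p q hp hq => rw [map_add, map_add, hp, hq, add_zero]
  | mul_X p k hp =>
    rw [map_mul, Derivation.leibniz, hp, MvPolynomial.rename_X,
      MvPolynomial.pderiv_X_of_ne (by simp)]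
    simp

theorem pderiv_zfac_of_ne {i j : Fin r} (h : j ≠ i) :
    MvPolynomial.pderiv (Sum.inl i : Fin r ⊕ Fin (n + 1)) (zfac κ n j) = 0 := by
  have hX : MvPolynomial.pderiv (Sum.inl i : Fin r ⊕ Fin (n + 1))
      (MvPolynomial.X (Sum.inl j) : MvPolynomial (Fin r ⊕ Fin (n + 1)) K) = 0 :=
    MvPolynomial.pderiv_X_of_ne (by simpa using h)
  unfold zfac
  rw [map_add, map_add, MvPolynomial.pderiv_C_mul, hX, MvPolynomial.pderiv_one, pow_two,
    Derivation.leibniz, hX]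
  simp

theorem pderiv_zfac_self (i : Fin r) :
    MvPolynomial.pderiv (Sum.inl i : Fin r ⊕ Fin (n + 1)) (zfac κ n i) =
      2 * MvPolynomial.X (Sum.inl i) + MvPolynomial.C (κ i) := by
  have hX : MvPolynomial.pderiv (Sum.inl i : Fin r ⊕ Fin (n + 1))
      (MvPolynomial.X (Sum.inl i) : MvPolynomial (Fin r ⊕ Fin (n + 1)) K) = 1 :=
    MvPolynomial.pderiv_X_self _
  unfold zfac
  rw [map_add, map_add, MvPolynomial.pderiv_C_mul, hX, MvPolynomial.pderiv_one, pow_two,
    Derivation.leibniz, hX]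
  simp only [smul_eq_mul]
  ring

theorem pderiv_inl_feqn (i : Fin r) :
    MvPolynomial.pderiv (Sum.inl i : Fin r ⊕ Fin (n + 1)) (feqn P lam κ) =
      (2 * MvPolynomial.X (Sum.inl i) + MvPolynomial.C (κ i)) *
        ∏ j ∈ Finset.univ.erase i, zfac κ n j -
      fPhi P lam r * ∏ j ∈ Finset.univ.erase i, MvPolynomial.X (Sum.inl j) := by
  unfold feqn zmon fPhi
  rw [← Finset.mul_prod_erase Finset.univ (fun j => zfac κ n j) (Finset.mem_univ i),
    ← Finset.mul_prod_erase Finset.univ (fun j => (MvPolynomial.X (Sum.inl j) :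
      MvPolynomial (Fin r ⊕ Fin (n + 1)) K)) (Finset.mem_univ i),
    map_sub, Derivation.leibniz, Derivation.leibniz, Derivation.leibniz, pderiv_zfac_self,
    pderiv_inl_rename,
    pderiv_prod_eq_zero _ _ _ fun j hj => pderiv_zfac_of_ne (Finset.ne_of_mem_erase hj),
    pderiv_prod_eq_zero _ _ _ fun j hj => MvPolynomial.pderiv_X_of_ne
      (by simpa using Finset.ne_of_mem_erase hj), MvPolynomial.pderiv_X_self]
  simp only [smul_eq_mul]
  ring

theorem pderiv_inr_feqn (k : Fin (n + 1)) :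
    MvPolynomial.pderiv (Sum.inr k : Fin r ⊕ Fin (n + 1)) (feqn P lam κ) =
      - (MvPolynomial.rename Sum.inr (MvPolynomial.pderiv k (bPhi P lam)) * zmon K r n) := by
  unfold feqn zmon fPhi
  have h1 : ∀ j, MvPolynomial.pderiv (Sum.inr k : Fin r ⊕ Fin (n + 1))
      (MvPolynomial.X (Sum.inl j) : MvPolynomial (Fin r ⊕ Fin (n + 1)) K) = 0 :=
    fun j => MvPolynomial.pderiv_X_of_ne (by simp)
  have h2 : ∀ j, MvPolynomial.pderiv (Sum.inr k : Fin r ⊕ Fin (n + 1))
      (zfac κ n j) = 0 := by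
    intro j
    unfold zfac
    rw [map_add, map_add, MvPolynomial.pderiv_C_mul, h1, MvPolynomial.pderiv_one, pow_two,
      Derivation.leibniz, h1]
    simp
  rw [map_sub, pderiv_prod_eq_zero _ _ _ fun j _ => h2 j, Derivation.leibniz,
    pderiv_prod_eq_zero _ _ _ fun j _ => h1 j,
    MvPolynomial.pderiv_rename Sum.inr_injective]
  simp only [smul_eq_mul]
  ring

end deriv

section eval

variable {K : Type*} [Field K] {r n : ℕ} {P : MvPolynomial (Fin (n + 1)) K} {lam : K}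
  {κ : Fin r → K}

theorem eval_zfac (σ : K →+* ℂ) (p : Fin r ⊕ Fin (n + 1) → ℂ) (j : Fin r) :
    MvPolynomial.eval₂ σ p (zfac κ n j) =
      p (Sum.inl j) ^ 2 + σ (κ j) * p (Sum.inl j) + 1 := by
  unfold zfac
  simp only [MvPolynomial.eval₂_add, MvPolynomial.eval₂_mul, MvPolynomial.eval₂_pow,
    MvPolynomial.eval₂_X, MvPolynomial.eval₂_C, MvPolynomial.eval₂_one]

theorem eval_zmon (σ : K →+* ℂ) (p : Fin r ⊕ Fin (n + 1) → ℂ) :
    MvPolynomial.eval₂ σ p (zmon K r n) = ∏ j, p (Sum.inl j) := by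
  unfold zmon
  simp only [MvPolynomial.eval₂_prod, MvPolynomial.eval₂_X]

theorem eval_fPhi (σ : K →+* ℂ) (p : Fin r ⊕ Fin (n + 1) → ℂ) :
    MvPolynomial.eval₂ σ p (fPhi P lam r) =
      σ lam * MvPolynomial.eval₂ σ (fun j => p (Sum.inr j)) P := by
  unfold fPhi bPhi
  rw [MvPolynomial.eval₂_rename, MvPolynomial.eval₂_mul, MvPolynomial.eval₂_C]
  rfl

theorem eval_feqn (σ : K →+* ℂ) (p : Fin r ⊕ Fin (n + 1) → ℂ) :
    MvPolynomial.eval₂ σ p (feqn P lam κ) =
      ∏ j, (p (Sum.inl j) ^ 2 + σ (κ j) * p (Sum.inl j) + 1) -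
      (σ lam * MvPolynomial.eval₂ σ (fun j => p (Sum.inr j)) P) * ∏ j, p (Sum.inl j) := by
  unfold feqn
  rw [MvPolynomial.eval₂_sub, MvPolynomial.eval₂_mul, eval_fPhi, eval_zmon,
    MvPolynomial.eval₂_prod]
  simp only [eval_zfac]

theorem exists_smooth (σ : K →+* ℂ) (P : MvPolynomial (Fin (n + 1)) K) (κ : Fin r → K) :
    ∃ C : ℝ, 1 ≤ C ∧ ∀ lam : K, C ≤ ‖σ lam‖ → ∀ p : Fin r ⊕ Fin (n + 1) → ℂ,
      (∀ j, p (Sum.inl j) ≠ 0) →
      (MvPolynomial.eval₂ σ (fun j => p (Sum.inr j)) P = 0 →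
        ∃ i, MvPolynomial.eval₂ σ (fun j => p (Sum.inr j)) (MvPolynomial.pderiv i P) ≠ 0) →
      MvPolynomial.eval₂ σ p (feqn P lam κ) = 0 →
      ∃ i, MvPolynomial.eval₂ σ p (MvPolynomial.pderiv i (feqn P lam κ)) ≠ 0 := by
  obtain ⟨ε, hε, h⟩ := Pool.Agent.Y797.GC.exists_level (MvPolynomial.map σ P)
  set B : ℝ := ∏ j, (2 + ‖σ (κ j)‖) with hB
  have hB0 : 0 ≤ B := Finset.prod_nonneg fun j _ => by positivity
  refine ⟨B / ε + 1, by have : 0 ≤ B / ε := by positivity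
                        linarith, fun lam hlam p hz hP he => ?_⟩
  have hln : 0 < ‖σ lam‖ := by
    have : 0 ≤ B / ε := by positivity
    linarith
  have hl0 : σ lam ≠ 0 := norm_pos_iff.1 hln
  by_contra hcon
  push Not at hcon
  set x : Fin (n + 1) → ℂ := fun j => p (Sum.inr j) with hx
  have hprodz : ∏ j, p (Sum.inl j) ≠ 0 := Finset.prod_ne_zero_iff.2 fun j _ => hz j
  have hd : ∀ i, MvPolynomial.eval₂ σ x (MvPolynomial.pderiv i P) = 0 := by
    intro i
    have h1 := hcon (Sum.inr i)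
    rw [pderiv_inr_feqn, MvPolynomial.eval₂_neg, neg_eq_zero, MvPolynomial.eval₂_mul, eval_zmon,
      mul_eq_zero, or_iff_left hprodz, MvPolynomial.eval₂_rename] at h1
    unfold bPhi at h1
    rw [MvPolynomial.pderiv_C_mul, MvPolynomial.eval₂_mul,
      MvPolynomial.eval₂_C, mul_eq_zero, or_iff_right hl0] at h1
    exact h1
  have hP0 : MvPolynomial.eval₂ σ x P ≠ 0 := by
    intro h0
    obtain ⟨i, hi⟩ := hP h0
    exact hi (hd i)
  rw [eval_feqn, sub_eq_zero] at he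
  change _ = (σ lam * MvPolynomial.eval₂ σ x P) * _ at he
  have hne : ∏ j, (p (Sum.inl j) ^ 2 + σ (κ j) * p (Sum.inl j) + 1) ≠ 0 := by
    rw [he]
    exact mul_ne_zero (mul_ne_zero hl0 hP0) hprodz
  have hz2 : ∀ j, p (Sum.inl j) ^ 2 = 1 := by
    intro j
    have h1 := hcon (Sum.inl j)
    rw [pderiv_inl_feqn, MvPolynomial.eval₂_sub, MvPolynomial.eval₂_mul, MvPolynomial.eval₂_mul,
      eval_fPhi, MvPolynomial.eval₂_prod, MvPolynomial.eval₂_prod, MvPolynomial.eval₂_add,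
      MvPolynomial.eval₂_mul, MvPolynomial.eval₂_C, MvPolynomial.eval₂_X] at h1
    have h22 : MvPolynomial.eval₂ σ p (2 : MvPolynomial (Fin r ⊕ Fin (n + 1)) K) = 2 := by
      have : (2 : MvPolynomial (Fin r ⊕ Fin (n + 1)) K) = MvPolynomial.C 2 :=
        (map_ofNat MvPolynomial.C 2).symm
      rw [this, MvPolynomial.eval₂_C, map_ofNat]
    simp only [eval_zfac, MvPolynomial.eval₂_X] at h1
    rw [h22] at h1
    have h2 := Finset.mul_prod_erase Finset.univ
      (fun j => p (Sum.inl j) ^ 2 + σ (κ j) * p (Sum.inl j) + 1) (Finset.mem_univ j)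
    have h3 := Finset.mul_prod_erase Finset.univ (fun j => p (Sum.inl j)) (Finset.mem_univ j)
    set P1 := ∏ j ∈ Finset.univ.erase j, (p (Sum.inl j) ^ 2 + σ (κ j) * p (Sum.inl j) + 1)
    set P2 := ∏ j ∈ Finset.univ.erase j, p (Sum.inl j)
    have h4 : P1 ≠ 0 := by
      intro h0
      rw [h0, mul_zero] at h2
      exact hne h2.symm
    change _ * P1 = _ at h2
    change _ * P2 = _ at h3
    have h5 : (p (Sum.inl j) ^ 2 - 1) * P1 = 0 := by
      rw [← h2, ← h3] at he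
      linear_combination p (Sum.inl j) * h1 - he
    rcases mul_eq_zero.1 h5 with h6 | h6
    · linear_combination h6
    · exact absurd h6 h4
  have hnorm : ∀ j, ‖p (Sum.inl j)‖ = 1 := by
    intro j
    have h1 := congrArg norm (hz2 j)
    rw [norm_pow, norm_one] at h1
    exact (pow_eq_one_iff_of_nonneg (norm_nonneg _) two_ne_zero).1 h1
  have hle : ‖σ lam * MvPolynomial.eval₂ σ x P‖ ≤ B := by
    have h1 : ‖σ lam * MvPolynomial.eval₂ σ x P‖ =
        ‖∏ j, (p (Sum.inl j) ^ 2 + σ (κ j) * p (Sum.inl j) + 1)‖ := by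
      rw [he, norm_mul _ (∏ j, p (Sum.inl j)), norm_prod]
      simp only [hnorm, Finset.prod_const_one, mul_one]
    rw [h1, norm_prod, hB]
    refine Finset.prod_le_prod (fun j _ => norm_nonneg _) fun j _ => ?_
    rw [hz2 j]
    refine (norm_add_le _ _).trans ?_
    have h2 := norm_add_le (1 : ℂ) (σ (κ j) * p (Sum.inl j))
    rw [norm_mul, hnorm j, mul_one, norm_one] at h2
    rw [norm_one]
    linarith
  have hsmall : ‖MvPolynomial.eval₂ σ x P‖ < ε := by
    rw [norm_mul] at hle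
    by_contra hcon2
    push Not at hcon2
    have h1 : (B / ε + 1) * ε ≤ ‖σ lam‖ * ‖MvPolynomial.eval₂ σ x P‖ :=
      mul_le_mul hlam hcon2 hε.le (norm_nonneg _)
    have h2 : (B / ε + 1) * ε = B + ε := by
      field_simp
    linarith
  obtain ⟨i, hi⟩ := h _ hP0 hsmall x (Pool.Agent.Y797.TW.eval_map σ x P)
  rw [MvPolynomial.pderiv_map, Pool.Agent.Y797.TW.eval_map] at hi
  exact hi (hd i)

end eval

section Ev

variable {K : Type*} [Field K] {r n N : ℕ} {σ : K →+* ℂ} {P : MvPolynomial (Fin (n + 1)) K}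
  {lam : K} {κ : Fin r → K}

/-- The complex points of the open part. -/
def FPt (σ : K →+* ℂ) (P : MvPolynomial (Fin (n + 1)) K) (lam : K) (κ : Fin r → K)
    (p : Fin r ⊕ Fin (n + 1) → ℂ) : Prop :=
  MvPolynomial.eval₂ σ p (feqn P lam κ) = 0 ∧
    MvPolynomial.eval₂ σ p (fPhi P lam r * zmon K r n) ≠ 0

/-- evaluation of the regular functions on the hypersurface -/
noncomputable def FPt.evB {p : Fin r ⊕ Fin (n + 1) → ℂ} (hx : FPt σ P lam κ p) :
    FRing P lam κ →+* ℂ :=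
  Ideal.Quotient.lift (Ideal.span {feqn P lam κ}) (MvPolynomial.eval₂Hom σ p) (by
    intro q hq
    have hle : Ideal.span {feqn P lam κ} ≤ RingHom.ker (MvPolynomial.eval₂Hom σ p) := by
      rw [Ideal.span_le]
      rintro q rfl
      exact hx.1
    exact hle hq)

theorem FPt.evB_fpol {p : Fin r ⊕ Fin (n + 1) → ℂ} (hx : FPt σ P lam κ p)
    (q : MvPolynomial (Fin r ⊕ Fin (n + 1)) K) :
    hx.evB (fpol P lam κ q) = MvPolynomial.eval₂Hom σ p q :=
  Ideal.Quotient.lift_mk _ _ _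

theorem FPt.evB_ne {p : Fin r ⊕ Fin (n + 1) → ℂ} (hx : FPt σ P lam κ p) :
    hx.evB (fdel P lam κ) ≠ 0 := by
  unfold fdel
  rw [hx.evB_fpol]
  exact hx.2

/-- evaluation of the regular functions on the open part -/
noncomputable def FPt.evA {p : Fin r ⊕ Fin (n + 1) → ℂ} (hx : FPt σ P lam κ p) :
    FOpen P lam κ →+* ℂ :=
  liftF hx.evB hx.evB_ne

theorem FPt.evA_toF {p : Fin r ⊕ Fin (n + 1) → ℂ} (hx : FPt σ P lam κ p)
    (b : FRing P lam κ) : hx.evA (toF P lam κ b) = hx.evB b :=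
  liftF_toF _ _ _

theorem FPt.evA_congr {p q : Fin r ⊕ Fin (n + 1) → ℂ} (hx : FPt σ P lam κ p)
    (hy : FPt σ P lam κ q) (h : p = q) : hx.evA = hy.evA := by
  subst h
  rfl

theorem FPt.evA_fcst {p : Fin r ⊕ Fin (n + 1) → ℂ} (hx : FPt σ P lam κ p) (y : K) :
    hx.evA (fcst P lam κ y) = σ y := by
  show hx.evA (toF P lam κ (fpol P lam κ (MvPolynomial.C y))) = _
  rw [hx.evA_toF, hx.evB_fpol]
  simp

theorem FPt.evA_fz {p : Fin r ⊕ Fin (n + 1) → ℂ} (hx : FPt σ P lam κ p)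
    (j : Fin r) : hx.evA (fz P lam κ j : FOpen P lam κ) = p (Sum.inl j) := by
  rw [coe_fz, hx.evA_toF, hx.evB_fpol]
  simp

theorem FPt.evA_rename {p : Fin r ⊕ Fin (n + 1) → ℂ} (hx : FPt σ P lam κ p)
    (F : MvPolynomial (Fin (n + 1)) K) :
    hx.evA (toF P lam κ (fpol P lam κ (MvPolynomial.rename Sum.inr F))) =
      MvPolynomial.eval₂ σ (fun j => p (Sum.inr j)) F := by
  rw [hx.evA_toF, hx.evB_fpol]
  show MvPolynomial.eval₂ σ p (MvPolynomial.rename Sum.inr F) = _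
  rw [MvPolynomial.eval₂_rename]
  rfl

theorem contDiff_evA {p : (Fin N → ℝ) → (Fin r ⊕ Fin (n + 1) → ℂ)} (hc : ContDiff ℝ 2 p)
    (hx : ∀ θ, FPt σ P lam κ (p θ)) (h : FOpen P lam κ) :
    ContDiff ℝ 2 fun θ => (hx θ).evA h := by
  have hxk : ∀ k, ContDiff ℝ 2 fun θ => p θ k := fun k => contDiff_pi.1 hc k
  have hmv : ∀ q : MvPolynomial (Fin r ⊕ Fin (n + 1)) K,
      ContDiff ℝ 2 fun θ => MvPolynomial.eval₂Hom σ (p θ) q := by
    intro q
    induction q using MvPolynomial.induction_on with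
    | C c => simpa using contDiff_const
    | add p q hp hq => simpa using hp.add hq
    | mul_X p k hp => simpa using hp.mul (hxk k)
  have hB : ∀ b : FRing P lam κ, ContDiff ℝ 2 fun θ => (hx θ).evB b := by
    intro b
    obtain ⟨q, hq⟩ := Ideal.Quotient.mk_surjective b
    have e : (fun θ => (hx θ).evB b) = fun θ => MvPolynomial.eval₂Hom σ (p θ) q := by
      funext θ
      rw [← hq]
      exact (hx θ).evB_fpol q
    rw [e]
    exact hmv q
  obtain ⟨q, hq⟩ := AdjoinRoot.mk_surjective (g := feqnO P lam κ) h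
  have e : (fun θ => (hx θ).evA h) = fun θ =>
      ∑ i ∈ Finset.range (q.natDegree + 1), (hx θ).evB (q.coeff i) *
        ((hx θ).evB (fdel P lam κ))⁻¹ ^ i := by
    funext θ
    rw [← hq]
    unfold FPt.evA
    rw [liftF_mk, Polynomial.eval₂_eq_sum_range]
  rw [e]
  exact ContDiff.sum fun i _ => (hB _).mul
    (((hB _).inv fun θ => (hx θ).evB_ne).pow i)

/-- a torus in the hypersurface -/
noncomputable def mkF (p : (Fin N → ℝ) → (Fin r ⊕ Fin (n + 1) → ℂ)) (hc : ContDiff ℝ 2 p)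
    (hp : ∀ θ i, p (θ + Pi.single i 1) = p θ)
    (hx : ∀ θ, FPt σ P lam κ (p θ)) : Torus (FOpen P lam κ) N where
  e θ := (hx θ).evA
  smooth h := contDiff_evA hc hx h
  periodic θ i := FPt.evA_congr _ _ (hp θ i)

variable (p : (Fin N → ℝ) → (Fin r ⊕ Fin (n + 1) → ℂ)) (hc : ContDiff ℝ 2 p)
    (hp : ∀ θ i, p (θ + Pi.single i 1) = p θ)
    (hx : ∀ θ, FPt σ P lam κ (p θ))

theorem mkF_rename (F : MvPolynomial (Fin (n + 1)) K) :
    (mkF p hc hp hx).fn (toF P lam κ (fpol P lam κ (MvPolynomial.rename Sum.inr F))) =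
      fun θ => MvPolynomial.eval₂ σ (fun j => p θ (Sum.inr j)) F := by
  funext θ
  exact (hx θ).evA_rename F

theorem mkF_fz (j : Fin r) :
    (mkF p hc hp hx).fn (fz P lam κ j : FOpen P lam κ) = fun θ => p θ (Sum.inl j) := by
  funext θ
  exact (hx θ).evA_fz j

end Ev

end Pool.Agent.T6.H69.AF
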