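import Pool.Agent.T6.H69.AF.TorB
import Pool.Agent.TH577.UA.Final
set_option autoImplicit false

/-!
The regulators of the symbols of the bases without broken circuits, for large `λ`.
-/

namespace Pool.Agent.T6.H69.AF

open Pool.Agent.TH826.MK hiding fx

open Pool.Agent.TH826.GA (cm vtx al be lf ku coe_ku)

open Pool.Agent.TH577.UA (Distinct hi kap kap_ne lead Ix mrow yrow det_yrow lead_same lead_other
  det_ne_zero_of_tri)

open Pool.Agent.Y797.TW (nex)

open Pool.Agent.TH826.SX (det_ne_zero_near)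

open Pool.Agent.T6.H53.CT (RR RR_zero RR_left RR_right det_RR)

section main

variable {K : Type*} [Field K] {r s n m : ℕ} {g : MvPolynomial (Fin (n + 1)) K}
  {w : Fin (m + 1) → ℕ} {c : Fin (m + 1) → Fin (n + 1) → K} {a : Fin (m + 1) → K} {lam : K}

/-- the entries `κ_i L_{T i} / L_{hi i}` -/
theorem near_fe {κ : Fin r → K} {N : ℕ} {σ : K →+* ℂ} {Γ : Torus (FOpen (aP g w c a) lam κ) N}
    {q δ : ℝ} (hΓ : ∀ θ x, Γ.e θ (fcst (aP g w c a) lam κ x) = σ x)
    {T : Fin (n + 1) → Fin (m + 1)} (hT : (cm c T).det ≠ 0) (l : Fin (n + 1))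
    {ρ ρ' : Fin (N + 1) → ℝ} (h1 : Near Γ q δ (fl g w c a lam κ (T l)) ρ)
    (h2 : Near Γ q δ (fl g w c a lam κ (hi c T l)) ρ')
    (h3 : |Real.log ‖σ (kap c T l)‖ / q| ≤ δ) :
    Near Γ q (3 * δ) (fe g w c a lam κ T l) fun i => ρ i - ρ' i := by
  have h4 : Near Γ q δ (Units.map (fcst (aP g w c a) lam κ : K →* FOpen (aP g w c a) lam κ)
      (ku (kap c T l))) 0 := by
    refine Near.const (x := σ (kap c T l)) ((map_ne_zero σ).2 (kap_ne hT l)) ?_ h3
    funext θ
    show Γ.e θ (fcst (aP g w c a) lam κ (ku (kap c T l) : K)) = _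
    rw [coe_ku (kap_ne hT l)]
    exact hΓ θ _
  have h5 := h4.mul (h1.div h2)
  unfold fe
  refine (h5.congr ?_).mono (by linarith)
  funext i
  simp

theorem exists_torus_succ (σ : K →+* ℂ) (κ : Fin (s + 1) → K) (hD : Distinct c a) (hg : g ≠ 0)
    (T : Ix c a) : ∃ D : ℝ, D ≠ 0 ∧ ∀ ε : ℝ, 0 < ε → ∃ Λ : ℝ, 1 < Λ ∧ ∀ lam : K,
      Λ ≤ ‖σ lam‖ → ∃ Γ : Torus (FOpen (aP g w c a) lam κ) (s + 1 + n),
        (∀ θ x, Γ.e θ (fcst (aP g w c a) lam κ x) = σ x) ∧
        ∀ T' : Ix c a, |Γ.reg (symb (fent g w c a lam κ T'.1)) / Real.log ‖σ lam‖ -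
          D * lead c a T.1 T'.1 (hi c T'.1)| ≤ ε := by
  classical
  obtain ⟨k, W0, hnear⟩ := exists_near_succ (g := g) (w := w) σ κ T.2.2.1 hD hg
  have hpi := Real.pi_pos
  refine ⟨(2 * Real.pi) ^ (s + (n + 1)), by positivity, fun ε hε => ?_⟩
  set BB : Ix c a → Matrix (Fin (n + 1)) (Fin (n + 1)) ℝ := fun T' =>
    Matrix.of fun l j => ((nex k (fun i => lo c a T.1 (T'.1 l) i) j : ℕ) : ℝ) -
      ((nex k (fun i => lo c a T.1 (hi c T'.1 l) i) j : ℕ) : ℝ) with hBB
  choose δ hδ hclose using fun T' : Ix c a => reg_close (RR s W0 (BB T')) hε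
  obtain ⟨T0, -, hT0⟩ := Finset.exists_min_image Finset.univ δ ⟨T, Finset.mem_univ _⟩
  set δ0 : ℝ := δ T0 / 3 with hδ0
  have hδ0pos : 0 < δ0 := by
    have := hδ T0
    rw [hδ0]
    linarith
  have hδle : ∀ T', 3 * δ0 ≤ δ T' := by
    intro T'
    have h1 := hT0 T' (Finset.mem_univ T')
    rw [hδ0]
    linarith
  obtain ⟨Λ, hΛ1, hΛ⟩ := hnear δ0 hδ0pos
  set G : ℝ := ∑ T' : Ix c a, ∑ l, |Real.log ‖σ (kap c T'.1 l)‖| with hG
  have hG0 : 0 ≤ G := Finset.sum_nonneg fun S _ => Finset.sum_nonneg fun i _ => abs_nonneg _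
  have hGS : ∀ (T' : Ix c a) l, |Real.log ‖σ (kap c T'.1 l)‖| ≤ G := fun T' l =>
    (Finset.single_le_sum (f := fun l => |Real.log ‖σ (kap c T'.1 l)‖|)
      (fun i _ => abs_nonneg _) (Finset.mem_univ l)).trans
    (Finset.single_le_sum (f := fun T' : Ix c a => ∑ l, |Real.log ‖σ (kap c T'.1 l)‖|)
      (fun S _ => Finset.sum_nonneg fun i _ => abs_nonneg _) (Finset.mem_univ T'))
  have hexp := Real.exp_pos (G / δ0)
  refine ⟨Λ + Real.exp (G / δ0), by linarith, fun lam hlam => ?_⟩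
  have hln : 1 < ‖σ lam‖ := by linarith
  obtain ⟨Γ, hΓ, hz0, hzj, hfl⟩ := hΛ lam (by linarith)
  set q : ℝ := Real.log ‖σ lam‖ with hq
  have hqpos : 0 < q := Real.log_pos hln
  have hqG : G ≤ δ0 * q := by
    have h1 : G / δ0 ≤ q := by
      rw [hq, Real.le_log_iff_exp_le (by linarith)]
      linarith
    rw [div_le_iff₀ hδ0pos] at h1
    linarith
  have hkap : ∀ (T' : Ix c a) l, |Real.log ‖σ (kap c T'.1 l)‖ / q| ≤ δ0 := by
    intro T' l
    rw [abs_div, abs_of_pos hqpos, div_le_iff₀ hqpos]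
    exact (hGS T' l).trans hqG
  obtain ⟨Γ', hΓ', hreg⟩ := exists_cast (show s + (n + 1) = s + 1 + n by omega) Γ
  refine ⟨Γ', fun θ x => ?_, fun T' => ?_⟩
  · obtain ⟨θ', hθ'⟩ := hΓ' θ (fcst (aP g w c a) lam κ x)
    rw [hθ', hΓ]
  set u : Fin (s + (n + 1) + 1) → (FOpen (aP g w c a) lam κ)ˣ :=
    Fin.cons (fz (aP g w c a) lam κ 0) (Fin.append (fun j : Fin s => fz (aP g w c a) lam κ j.succ)
      fun i : Fin (n + 1) => fe g w c a lam κ T'.1 i) with hu
  have hfent : fent g w c a lam κ T'.1 = fun i => u (Fin.cast (by omega) i) := by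
    funext i
    unfold fent
    refine Fin.addCases (fun j => ?_) (fun j => ?_) i
    · rw [Fin.append_left]
      refine Fin.cases ?_ (fun j => ?_) j
      · rfl
      · have e : (Fin.cast (by omega) (Fin.castAdd (n + 1) j.succ) : Fin (s + (n + 1) + 1)) =
            (Fin.castAdd (n + 1) j).succ := rfl
        rw [e, hu, Fin.cons_succ, Fin.append_left]
    · rw [Fin.append_right]
      have e : (Fin.cast (by omega) (Fin.natAdd (s + 1) j) : Fin (s + (n + 1) + 1)) =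
          (Fin.natAdd s j).succ := by
        apply Fin.ext
        simp only [Fin.val_cast, Fin.val_natAdd, Fin.val_succ]
        omega
      rw [e, hu, Fin.cons_succ, Fin.append_right]
  have hreg' : Γ'.reg (symb (fent g w c a lam κ T'.1)) = Γ.reg (symb u) := by
    rw [hfent]
    exact hreg u
  have hdet : (RR s W0 (BB T')).det = lead c a T.1 T'.1 (hi c T'.1) := by
    rw [det_RR]
    exact det_nex k T.1 T'.1 (hi c T'.1)
  rw [hreg', ← hdet]
  refine hclose T' _ Γ q hqpos.ne' u fun l => ?_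
  have hle := hδle T'
  refine Fin.cases ?_ (fun l => ?_) l
  · rw [RR_zero]
    exact hz0.mono (by linarith)
  · refine Fin.addCases (fun j => ?_) (fun l => ?_) l
    · rw [RR_left]
      have e : u (Fin.castAdd (n + 1) j).succ = fz (aP g w c a) lam κ j.succ := by
        rw [hu, Fin.cons_succ, Fin.append_left]
      rw [e]
      exact (hzj j).mono (by linarith)
    · rw [RR_right]
      have e : u (Fin.natAdd s l).succ = fe g w c a lam κ T'.1 l := by
        rw [hu, Fin.cons_succ, Fin.append_right]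
      rw [e]
      refine ((near_fe hΓ T'.2.2.1 l (hfl _) (hfl _) (hkap T' l)).congr ?_).mono hle
      funext i
      refine Fin.cases ?_ (fun i => ?_) i
      · simp only [Fin.cons_zero, sub_self]
      · simp only [Fin.cons_succ]
        refine Fin.addCases (fun j => ?_) (fun j => ?_) i
        · rw [Fin.append_left, Fin.append_left, Fin.append_left, sub_self]
        · rw [Fin.append_right, Fin.append_right, Fin.append_right]
          rfl

theorem exists_torus_zero (σ : K →+* ℂ) (κ : Fin 0 → K) (hD : Distinct c a) (hg : g ≠ 0)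
    (T : Ix c a) : ∃ D : ℝ, D ≠ 0 ∧ ∀ ε : ℝ, 0 < ε → ∃ Λ : ℝ, 1 < Λ ∧ ∀ lam : K,
      Λ ≤ ‖σ lam‖ → ∃ Γ : Torus (FOpen (aP g w c a) lam κ) (0 + n),
        (∀ θ x, Γ.e θ (fcst (aP g w c a) lam κ x) = σ x) ∧
        ∀ T' : Ix c a, |Γ.reg (symb (fent g w c a lam κ T'.1)) / Real.log ‖σ lam‖ -
          D * lead c a T.1 T'.1 (hi c T'.1)| ≤ ε := by
  classical
  obtain ⟨k, Q, N, hQ, hnear⟩ := exists_near_zero (g := g) (w := w) σ κ T.2.2.1 hD hg
  have hpi := Real.pi_pos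
  refine ⟨-((2 * Real.pi) ^ n * (Matrix.of (yrow Q N)).det), neg_ne_zero.2
    (mul_ne_zero (by positivity) (det_yrow hQ N)), fun ε hε => ?_⟩
  set BB : Ix c a → Matrix (Fin (n + 1)) (Fin (n + 1)) ℝ := fun T' =>
    Matrix.of fun l j => mrow Q N (nex k fun i => lo c a T.1 (T'.1 l) i) j -
      mrow Q N (nex k fun i => lo c a T.1 (hi c T'.1 l) i) j with hBB
  choose δ hδ hclose using fun T' : Ix c a => reg_close (BB T') hε
  obtain ⟨T0, -, hT0⟩ := Finset.exists_min_image Finset.univ δ ⟨T, Finset.mem_univ _⟩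
  set δ0 : ℝ := δ T0 / 3 with hδ0
  have hδ0pos : 0 < δ0 := by
    have := hδ T0
    rw [hδ0]
    linarith
  have hδle : ∀ T', 3 * δ0 ≤ δ T' := by
    intro T'
    have h1 := hT0 T' (Finset.mem_univ T')
    rw [hδ0]
    linarith
  obtain ⟨Λ, hΛ1, hΛ⟩ := hnear δ0 hδ0pos
  set G : ℝ := ∑ T' : Ix c a, ∑ l, |Real.log ‖σ (kap c T'.1 l)‖| with hG
  have hG0 : 0 ≤ G := Finset.sum_nonneg fun S _ => Finset.sum_nonneg fun i _ => abs_nonneg _
  have hGS : ∀ (T' : Ix c a) l, |Real.log ‖σ (kap c T'.1 l)‖| ≤ G := fun T' l =>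
    (Finset.single_le_sum (f := fun l => |Real.log ‖σ (kap c T'.1 l)‖|)
      (fun i _ => abs_nonneg _) (Finset.mem_univ l)).trans
    (Finset.single_le_sum (f := fun T' : Ix c a => ∑ l, |Real.log ‖σ (kap c T'.1 l)‖|)
      (fun S _ => Finset.sum_nonneg fun i _ => abs_nonneg _) (Finset.mem_univ T'))
  have hexp := Real.exp_pos (G / δ0)
  refine ⟨Λ + Real.exp (G / δ0), by linarith, fun lam hlam => ?_⟩
  have hln : 1 < ‖σ lam‖ := by linarith
  obtain ⟨Γ, hΓ, hfl⟩ := hΛ lam (by linarith)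
  set q : ℝ := Real.log ‖σ lam‖ with hq
  have hqpos : 0 < q := Real.log_pos hln
  have hqG : G ≤ δ0 * q := by
    have h1 : G / δ0 ≤ q := by
      rw [hq, Real.le_log_iff_exp_le (by linarith)]
      linarith
    rw [div_le_iff₀ hδ0pos] at h1
    linarith
  have hkap : ∀ (T' : Ix c a) l, |Real.log ‖σ (kap c T'.1 l)‖ / -q| ≤ δ0 := by
    intro T' l
    rw [abs_div, abs_neg, abs_of_pos hqpos, div_le_iff₀ hqpos]
    exact (hGS T' l).trans hqG
  obtain ⟨Γ', hΓ', hreg⟩ := exists_cast (show n = 0 + n by omega) Γ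
  refine ⟨Γ', fun θ x => ?_, fun T' => ?_⟩
  · obtain ⟨θ', hθ'⟩ := hΓ' θ (fcst (aP g w c a) lam κ x)
    rw [hθ', hΓ]
  have hfent : fent g w c a lam κ T'.1 =
      fun i => fe g w c a lam κ T'.1 (Fin.cast (by omega) i) := by
    funext i
    unfold fent
    refine Fin.addCases (fun j => j.elim0) (fun j => ?_) i
    rw [Fin.append_right]
    congr 1
    apply Fin.ext
    simp only [Fin.val_cast, Fin.val_natAdd]
    omega
  have hreg' : Γ'.reg (symb (fent g w c a lam κ T'.1)) =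
      Γ.reg (symb (fe g w c a lam κ T'.1)) := by
    rw [hfent]
    exact hreg (fe g w c a lam κ T'.1)
  have hdet : (BB T').det = lead c a T.1 T'.1 (hi c T'.1) * (Matrix.of (yrow Q N)).det :=
    det_mrow Q N k T.1 T'.1 (hi c T'.1)
  have h1 := hclose T' _ Γ (-q) (neg_ne_zero.2 hqpos.ne') (fe g w c a lam κ T'.1) fun l =>
    (near_fe hΓ T'.2.2.1 l (hfl _) (hfl _) (hkap T' l)).mono (hδle T')
  rw [hreg']
  rw [hdet] at h1
  have e : Γ.reg (symb (fe g w c a lam κ T'.1)) / q -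
      -((2 * Real.pi) ^ n * (Matrix.of (yrow Q N)).det) * lead c a T.1 T'.1 (hi c T'.1) =
      -(Γ.reg (symb (fe g w c a lam κ T'.1)) / -q -
        (2 * Real.pi) ^ n * (lead c a T.1 T'.1 (hi c T'.1) * (Matrix.of (yrow Q N)).det)) := by
    rw [div_neg]
    ring
  rw [e, abs_neg]
  exact h1

theorem exists_torus (σ : K →+* ℂ) (κ : Fin r → K) (hD : Distinct c a) (hg : g ≠ 0)
    (T : Ix c a) : ∃ D : ℝ, D ≠ 0 ∧ ∀ ε : ℝ, 0 < ε → ∃ Λ : ℝ, 1 < Λ ∧ ∀ lam : K,
      Λ ≤ ‖σ lam‖ → ∃ Γ : Torus (FOpen (aP g w c a) lam κ) (r + n),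
        (∀ θ x, Γ.e θ (fcst (aP g w c a) lam κ x) = σ x) ∧
        ∀ T' : Ix c a, |Γ.reg (symb (fent g w c a lam κ T'.1)) / Real.log ‖σ lam‖ -
          D * lead c a T.1 T'.1 (hi c T'.1)| ≤ ε := by
  cases r with
  | zero => exact exists_torus_zero σ κ hD hg T
  | succ s => exact exists_torus_succ σ κ hD hg T

/-- The tori and the determinant of the regulators. -/
theorem exists_tori (σ : K →+* ℂ) (κ : Fin r → K) (hD : Distinct c a) (hg : g ≠ 0) :
    ∃ C : ℝ, 1 ≤ C ∧ ∀ lam : K, C ≤ ‖σ lam‖ →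
      ∃ Γ : Ix c a → Torus (FOpen (aP g w c a) lam κ) (r + n),
        (∀ T θ x, (Γ T).e θ (fcst (aP g w c a) lam κ x) = σ x) ∧
        (Matrix.of fun T T' : Ix c a =>
          (Γ T).reg (symb (fent g w c a lam κ T'.1))).det ≠ 0 := by
  classical
  choose D hD0 hT using fun T : Ix c a => exists_torus (g := g) (w := w) σ κ hD hg T
  set M0 : Matrix (Ix c a) (Ix c a) ℝ := Matrix.of fun T T' =>
    D T * lead c a T.1 T'.1 (hi c T'.1) with hM0
  have hM : M0.det ≠ 0 := by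
    have h1 : M0.det = (∏ T, D T) *
        (Matrix.of fun T T' : Ix c a => lead c a T.1 T'.1 (hi c T'.1)).det := by
      rw [← Matrix.det_mul_column]
      rfl
    rw [h1]
    refine mul_ne_zero (Finset.prod_ne_zero_iff.2 fun T _ => hD0 T) ?_
    refine det_ne_zero_of_tri (fun T : Ix c a => ∑ l, (T.1 l : ℕ)) _ (fun T => ?_)
      (fun T T' h => ?_)
    · rw [Matrix.of_apply]
      exact lead_same T.2
    · rw [Matrix.of_apply] at h
      rcases lead_other T.2 T'.2 h with h1 | h1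
      · exact Or.inl (Subtype.ext h1)
      · exact Or.inr h1
  obtain ⟨δ, hδ, hdet⟩ := det_ne_zero_near M0 hM
  choose Λ hΛ1 hΛ using fun T : Ix c a => hT T (δ / 2) (by linarith)
  set C : ℝ := ∑ T, |Λ T| + 2 with hC
  have hsum : 0 ≤ ∑ T, |Λ T| := Finset.sum_nonneg fun J _ => abs_nonneg _
  have hΛC : ∀ T, Λ T ≤ C := by
    intro T
    have h1 := Finset.single_le_sum (f := fun T => |Λ T|) (fun T _ => abs_nonneg _)
      (Finset.mem_univ T)
    have h2 := le_abs_self (Λ T)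
    have h3 : |Λ T| ≤ ∑ T, |Λ T| := h1
    linarith
  refine ⟨C, by linarith, fun lam hlam => ?_⟩
  choose Γ hΓ1 hΓ2 using fun T => hΛ T lam ((hΛC T).trans hlam)
  refine ⟨Γ, hΓ1, ?_⟩
  have hs : Real.log ‖σ lam‖ ≠ 0 := by
    have : 0 < Real.log ‖σ lam‖ := Real.log_pos (by linarith)
    linarith
  set q : ℝ := Real.log ‖σ lam‖ with hqdef
  have h1 : (Matrix.of fun T T' : Ix c a =>
      (Γ T).reg (symb (fent g w c a lam κ T'.1)) / q).det ≠ 0 := by
    refine hdet _ fun T T' => ?_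
    rw [hM0, Matrix.of_apply, Matrix.of_apply]
    exact lt_of_le_of_lt (hΓ2 T T') (show δ / 2 < δ by linarith)
  have h2 : (Matrix.of fun T T' : Ix c a =>
      (Γ T).reg (symb (fent g w c a lam κ T'.1))) =
      q • (Matrix.of fun T T' : Ix c a =>
        (Γ T).reg (symb (fent g w c a lam κ T'.1)) / q) := by
    ext T T'
    rw [Matrix.smul_apply, Matrix.of_apply, Matrix.of_apply, smul_eq_mul]
    field_simp
  rw [h2, Matrix.det_smul]
  exact mul_ne_zero (pow_ne_zero _ hs) h1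

end main

end Pool.Agent.T6.H69.AF
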