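import Pool.Agent.Y797.TW.Tor
import Pool.Agent.TH577.UA.Comb
set_option autoImplicit false

/-!
The charts at the vertices of an arrangement, and the orders of the forms in them.
-/

namespace Pool.Agent.T6.H69.AF

open Pool.Agent.TH826.GA (cm vtx al be lf chg chg_lf)

open Pool.Agent.TH577.UA (Distinct top le_top al_top exists_al stp mu lead mrow yrow)

open Pool.Agent.Y797.TW (IsLow exists_low nex ex sum_nex det_ex)

open MvPolynomial (C X map bind₁)

section chart

variable {K : Type*} [Field K] {n m : ℕ} {c : Fin (m + 1) → Fin (n + 1) → K}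
  {a : Fin (m + 1) → K}

/-- The coordinates in terms of the forms `T`. -/
noncomputable def xc (σ : K →+* ℂ) (c : Fin (m + 1) → Fin (n + 1) → K) (a : Fin (m + 1) → K)
    (T : Fin (n + 1) → Fin (m + 1)) (j : Fin (n + 1)) : MvPolynomial (Fin (n + 1)) ℂ :=
  ∑ i, C (σ ((cm c T)⁻¹ j i)) * (X i + C (σ (a (T i))))

theorem bind_xc (σ : K →+* ℂ) {T : Fin (n + 1) → Fin (m + 1)} (hT : (cm c T).det ≠ 0)
    (p : MvPolynomial (Fin (n + 1)) K) :
    bind₁ (xc σ c a T) (map σ p) = map σ (chg c a T hT p) := by
  have hX : ∀ j, chg c a T hT (X j) = ∑ i, C ((cm c T)⁻¹ j i) *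
    (X i + C (a (T i))) := fun j => MvPolynomial.aeval_X _ _
  induction p using MvPolynomial.induction_on with
  | C y =>
    have h1 : chg c a T hT (C y) = C y := (chg c a T hT).commutes y
    rw [h1, MvPolynomial.map_C, MvPolynomial.bind₁, MvPolynomial.algHom_C]
    rfl
  | add p q hp hq => rw [map_add, map_add, map_add, map_add, hp, hq]
  | mul_X p j hp =>
    rw [map_mul, map_mul, map_mul, map_mul, hp, MvPolynomial.map_X, MvPolynomial.bind₁_X_right,
      hX]
    congr 1
    unfold xc
    simp only [map_sum, map_mul, map_add, MvPolynomial.map_C, MvPolynomial.map_X]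

theorem bind_ne_zero (σ : K →+* ℂ) {T : Fin (n + 1) → Fin (m + 1)} (hT : (cm c T).det ≠ 0)
    {p : MvPolynomial (Fin (n + 1)) K} (hp : p ≠ 0) :
    bind₁ (xc σ c a T) (map σ p) ≠ 0 := by
  rw [bind_xc σ hT]
  intro h
  apply hp
  apply (chg c a T hT).injective
  rw [map_zero]
  exact MvPolynomial.map_injective σ σ.injective (by rw [map_zero]; exact h)

/-- the exponents of the lowest monomial of the form `e` at the vertex of `T` -/
noncomputable def lo (c : Fin (m + 1) → Fin (n + 1) → K) (a : Fin (m + 1) → K)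
    (T : Fin (n + 1) → Fin (m + 1)) (e : Fin (m + 1)) : Fin (n + 1) →₀ ℕ :=
  open Classical in if be c a T e = 0 then Finsupp.single (top c T e) 1 else 0

theorem coeff_lin {R : Type*} [CommRing R] (u : Fin (n + 1) → R) (b : R)
    (β : Fin (n + 1) →₀ ℕ) :
    (∑ l, C (u l) * X l + C b : MvPolynomial (Fin (n + 1)) R).coeff β =
      (∑ l, if Finsupp.single l 1 = β then u l else 0) + if 0 = β then b else 0 := by
  classical
  rw [MvPolynomial.coeff_add, MvPolynomial.coeff_C, MvPolynomial.coeff_sum]
  simp only [MvPolynomial.coeff_C_mul, MvPolynomial.coeff_X', mul_ite, mul_one, mul_zero]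

theorem isLow_lf (σ : K →+* ℂ) {T : Fin (n + 1) → Fin (m + 1)} (hT : (cm c T).det ≠ 0)
    (hD : Distinct c a) (e : Fin (m + 1)) :
    IsLow (bind₁ (xc σ c a T) (map σ (lf c a e))) (lo c a T e) := by
  classical
  have hF : bind₁ (xc σ c a T) (map σ (lf c a e)) =
      ∑ l, C (σ (al c T e l)) * X l + C (σ (be c a T e)) := by
    rw [bind_xc σ hT, chg_lf]
    simp only [map_sum, map_mul, map_add, MvPolynomial.map_C, MvPolynomial.map_X]
  rw [hF]
  have hsinj : ∀ l l' : Fin (n + 1), Finsupp.single l 1 = Finsupp.single l' (1 : ℕ) → l = l' :=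
    fun l l' h => (Finsupp.single_left_inj one_ne_zero).1 h
  have hs0 : ∀ l : Fin (n + 1), Finsupp.single l (1 : ℕ) ≠ 0 := fun l h =>
    one_ne_zero (Finsupp.single_eq_zero.1 h)
  by_cases hbe : be c a T e = 0
  · have hlo : lo c a T e = Finsupp.single (top c T e) 1 := by
      unfold lo
      rw [if_pos hbe]
    rw [hlo]
    refine ⟨?_, fun β hβ hne => ?_⟩
    · rw [MvPolynomial.mem_support_iff, coeff_lin, if_neg (hs0 _).symm, add_zero,
        Finset.sum_eq_single (top c T e)]
      · rw [if_pos rfl]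
        exact (map_ne_zero σ).2 (al_top (exists_al hT hD hbe))
      · intro l _ hl
        rw [if_neg fun h => hl (hsinj _ _ h)]
      · intro h
        exact absurd (Finset.mem_univ _) h
    · rw [MvPolynomial.mem_support_iff, coeff_lin, hbe, map_zero, ite_self, add_zero] at hβ
      obtain ⟨l, -, hl⟩ := Finset.exists_ne_zero_of_sum_ne_zero hβ
      by_cases h1 : Finsupp.single l 1 = β
      · rw [if_pos h1] at hl
        have hal : al c T e l ≠ 0 := (map_ne_zero σ).1 hl
        have hlt : l < top c T e := by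
          refine lt_of_le_of_ne (le_top hal) ?_
          rintro rfl
          exact hne h1.symm
        subst h1
        refine ⟨l, fun j hj => ?_, ?_⟩
        · rw [Finsupp.single_eq_of_ne (hj.trans hlt).ne, Finsupp.single_eq_of_ne hj.ne]
        · rw [Finsupp.single_eq_of_ne hlt.ne, Finsupp.single_eq_same]
          exact one_pos
      · rw [if_neg h1] at hl
        exact absurd rfl hl
  · have hlo : lo c a T e = 0 := by
      unfold lo
      rw [if_neg hbe]
    rw [hlo]
    refine ⟨?_, fun β hβ hne => ?_⟩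
    · rw [MvPolynomial.mem_support_iff, coeff_lin, if_pos rfl, Finset.sum_eq_zero fun l _ =>
        if_neg (hs0 l), zero_add]
      exact (map_ne_zero σ).2 hbe
    · have h1 : ∃ i, β i ≠ 0 := by
        by_contra hcon
        push Not at hcon
        exact hne (Finsupp.ext hcon)
      obtain ⟨i, hi⟩ := h1
      obtain ⟨i0, hi0, hmin⟩ := Finset.exists_min_image
        (Finset.univ.filter fun i => β i ≠ 0) id ⟨i, Finset.mem_filter.2 ⟨Finset.mem_univ _, hi⟩⟩
      refine ⟨i0, fun j hj => ?_, ?_⟩
      · by_contra h2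
        have h3 : β j ≠ 0 := fun h => h2 (by rw [h]; rfl)
        exact absurd (hmin j (Finset.mem_filter.2 ⟨Finset.mem_univ _, h3⟩)) (not_le.2 hj)
      · exact Nat.pos_of_ne_zero (Finset.mem_filter.1 hi0).2

/-- the factors of the equation -/
noncomputable def afct (g : MvPolynomial (Fin (n + 1)) K) (w : Fin (m + 1) → ℕ)
    (c : Fin (m + 1) → Fin (n + 1) → K) (a : Fin (m + 1) → K) :
    Option ((e : Fin (m + 1)) × Fin (w e + 1)) → MvPolynomial (Fin (n + 1)) K
  | none => g
  | some e => lf c a e.1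

/-- the lowest exponents of all factors -/
theorem exists_lows (σ : K →+* ℂ) {T : Fin (n + 1) → Fin (m + 1)} (hT : (cm c T).det ≠ 0)
    (hD : Distinct c a) {g : MvPolynomial (Fin (n + 1)) K} (hg : g ≠ 0) (w : Fin (m + 1) → ℕ) :
    ∃ al : Option ((e : Fin (m + 1)) × Fin (w e + 1)) → Fin (n + 1) →₀ ℕ,
      (∀ i, IsLow (bind₁ (xc σ c a T) (map σ (afct g w c a i))) (al i)) ∧
      ∀ e, al (some e) = lo c a T e.1 := by
  obtain ⟨α, hα⟩ := exists_low (bind_ne_zero (a := a) σ hT hg)
  refine ⟨fun i => Option.elim i α fun e => lo c a T e.1, fun i => ?_, fun e => rfl⟩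
  cases i with
  | none => exact hα
  | some e => exact isLow_lf σ hT hD e.1

theorem det_lo (T p q : Fin (n + 1) → Fin (m + 1)) :
    (Matrix.of fun l j => ((lo c a T (p l) j : ℕ) : ℝ) - ((lo c a T (q l) j : ℕ) : ℝ)).det =
      lead c a T p q := by
  classical
  have hmu : ∀ e j, ((mu c a T e j : ℕ) : ℝ) = ∑ i, ((lo c a T e i : ℕ) : ℝ) * (stp i j : ℝ) := by
    intro e j
    unfold mu lo
    by_cases hbe : be c a T e = 0
    · rw [if_pos hbe, if_pos hbe, Finset.sum_eq_single (top c T e)]
      · rw [Finsupp.single_eq_same, Nat.cast_one, one_mul]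
      · intro i _ hi
        rw [Finsupp.single_eq_of_ne hi, Nat.cast_zero, zero_mul]
      · intro h
        exact absurd (Finset.mem_univ _) h
    · rw [if_neg hbe, if_neg hbe]
      simp
  have h : (Matrix.of fun l j => (mu c a T (p l) j : ℝ) - mu c a T (q l) j) =
      (Matrix.of fun l j => ((lo c a T (p l) j : ℕ) : ℝ) - ((lo c a T (q l) j : ℕ) : ℝ)) *
        Matrix.of fun i j : Fin (n + 1) => (stp i j : ℝ) := by
    ext l j
    rw [Matrix.mul_apply]
    simp only [Matrix.of_apply]
    rw [hmu, hmu, ← Finset.sum_sub_distrib]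
    exact Finset.sum_congr rfl fun i _ => by ring
  have hdet : (Matrix.of fun i j : Fin (n + 1) => (stp i j : ℝ)).det = 1 := by
    rw [Matrix.det_of_isUpperTriangular]
    · refine Finset.prod_eq_one fun i _ => ?_
      simp [stp]
    · intro i j hij
      have hij' : j < i := hij
      simp [stp, not_le.2 hij']
  unfold lead
  rw [h, Matrix.det_mul, hdet, mul_one]

theorem det_nex (k : Fin (n + 1) → ℕ) (T p q : Fin (n + 1) → Fin (m + 1)) :
    (Matrix.of fun l j => ((nex k (fun i => lo c a T (p l) i) j : ℕ) : ℝ) -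
      ((nex k (fun i => lo c a T (q l) i) j : ℕ) : ℝ)).det = lead c a T p q := by
  have h : (Matrix.of fun l j => ((nex k (fun i => lo c a T (p l) i) j : ℕ) : ℝ) -
      ((nex k (fun i => lo c a T (q l) i) j : ℕ) : ℝ)) =
      (Matrix.of fun l j => ((lo c a T (p l) j : ℕ) : ℝ) - ((lo c a T (q l) j : ℕ) : ℝ)) *
        Matrix.of fun j l => ((ex k j l : ℕ) : ℝ) := by
    ext l j
    rw [Matrix.mul_apply]
    simp only [Matrix.of_apply]
    rw [sum_nex, sum_nex, ← Finset.sum_sub_distrib]
    exact Finset.sum_congr rfl fun i _ => by ring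
  rw [h, Matrix.det_mul, det_ex, mul_one, det_lo]

theorem det_mrow (Q : ℕ) (N : Fin n → ℕ) (k : Fin (n + 1) → ℕ)
    (T p q : Fin (n + 1) → Fin (m + 1)) :
    (Matrix.of fun l j => mrow Q N (nex k fun i => lo c a T (p l) i) j -
      mrow Q N (nex k fun i => lo c a T (q l) i) j).det =
      lead c a T p q * (Matrix.of (yrow Q N)).det := by
  have h : (Matrix.of fun l j => mrow Q N (nex k fun i => lo c a T (p l) i) j -
      mrow Q N (nex k fun i => lo c a T (q l) i) j) =
      (Matrix.of fun l j => ((nex k (fun i => lo c a T (p l) i) j : ℕ) : ℝ) -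
        ((nex k (fun i => lo c a T (q l) i) j : ℕ) : ℝ)) * Matrix.of (yrow Q N) := by
    ext l j
    rw [Matrix.mul_apply]
    simp only [Matrix.of_apply]
    unfold mrow
    rw [← Finset.sum_sub_distrib]
    exact Finset.sum_congr rfl fun i _ => by ring
  rw [h, Matrix.det_mul, det_nex]

end chart

end Pool.Agent.T6.H69.AF
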