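import Pool.Agent.TH826.SX.Final
import Pool.Agent.TH333.CY.Tori
set_option autoImplicit false

/-!
The orders of units on tori, and the regulators of their symbols.
-/

namespace Pool.Agent.T6.H69.AF

open Pool.Agent.TH826.MK

open Pool.Agent.TH826.SX (pairing_close)

open Pool.Agent.TH333.CY (good_inv lw_inv)

section near

variable {A : Type*} [CommRing A] {N : ℕ}

/-- The unit `u` has the orders `ρ` on the torus, up to `δ`: its logarithm is `ρ_0 q`, and the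
logarithmic derivatives are `2 π i ρ_{j+1}`. -/
def Near (Γ : Torus A N) (q δ : ℝ) (u : Aˣ) (ρ : Fin (N + 1) → ℝ) : Prop :=
  (∀ θ, |Real.log ‖Γ.fn (u : A) θ‖ / q - ρ 0| ≤ δ) ∧
    ∀ j θ, ‖lw (Γ.fn (u : A)) j θ - 2 * Real.pi * Complex.I * ((ρ j.succ : ℝ) : ℂ)‖ ≤ δ

variable {Γ : Torus A N} {q δ δ' : ℝ} {u u' : Aˣ} {ρ ρ' : Fin (N + 1) → ℝ}

theorem fn_mul (u u' : Aˣ) :
    Γ.fn ((u * u' : Aˣ) : A) = fun θ => Γ.fn (u : A) θ * Γ.fn (u' : A) θ := by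
  funext θ
  unfold Torus.fn
  rw [Units.val_mul, map_mul]

theorem Near.mul (h : Near Γ q δ u ρ) (h' : Near Γ q δ' u' ρ') :
    Near Γ q (δ + δ') (u * u') fun i => ρ i + ρ' i := by
  refine ⟨fun θ => ?_, fun j θ => ?_⟩
  · rw [fn_mul]
    simp only
    rw [norm_mul, Real.log_mul (norm_ne_zero_iff.2 ((Γ.good u).ne_zero θ))
      (norm_ne_zero_iff.2 ((Γ.good u').ne_zero θ))]
    have h1 := h.1 θ
    have h2 := h'.1 θ
    have e : (Real.log ‖Γ.fn (u : A) θ‖ + Real.log ‖Γ.fn (u' : A) θ‖) / q - (ρ 0 + ρ' 0) =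
        (Real.log ‖Γ.fn (u : A) θ‖ / q - ρ 0) + (Real.log ‖Γ.fn (u' : A) θ‖ / q - ρ' 0) := by
      ring
    rw [e]
    exact (abs_add_le _ _).trans (add_le_add h1 h2)
  · rw [fn_mul, lw_mul (Γ.good u) (Γ.good u')]
    have h1 := h.2 j θ
    have h2 := h'.2 j θ
    have e : lw (Γ.fn (u : A)) j θ + lw (Γ.fn (u' : A)) j θ -
        2 * Real.pi * Complex.I * ((ρ j.succ + ρ' j.succ : ℝ) : ℂ) =
        (lw (Γ.fn (u : A)) j θ - 2 * Real.pi * Complex.I * ((ρ j.succ : ℝ) : ℂ)) +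
        (lw (Γ.fn (u' : A)) j θ - 2 * Real.pi * Complex.I * ((ρ' j.succ : ℝ) : ℂ)) := by
      push_cast
      ring
    rw [e]
    exact (norm_add_le _ _).trans (add_le_add h1 h2)

theorem Near.inv (h : Near Γ q δ u ρ) : Near Γ q δ u⁻¹ fun i => -ρ i := by
  have hfn : Γ.fn ((u⁻¹ : Aˣ) : A) = fun θ => (Γ.fn (u : A) θ)⁻¹ := by
    funext θ
    have h1 : Γ.fn ((u⁻¹ : Aˣ) : A) θ * Γ.fn (u : A) θ = 1 := by
      unfold Torus.fn
      rw [← map_mul, Units.inv_mul, map_one]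
    exact eq_inv_of_mul_eq_one_left h1
  refine ⟨fun θ => ?_, fun j θ => ?_⟩
  · rw [hfn]
    simp only
    rw [norm_inv, Real.log_inv]
    have e : -Real.log ‖Γ.fn (u : A) θ‖ / q - -ρ 0 =
        -(Real.log ‖Γ.fn (u : A) θ‖ / q - ρ 0) := by ring
    rw [e, abs_neg]
    exact h.1 θ
  · rw [hfn, lw_inv (Γ.good u)]
    have e : -lw (Γ.fn (u : A)) j θ - 2 * Real.pi * Complex.I * ((-ρ j.succ : ℝ) : ℂ) =
        -(lw (Γ.fn (u : A)) j θ - 2 * Real.pi * Complex.I * ((ρ j.succ : ℝ) : ℂ)) := by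
      push_cast
      ring
    rw [e, norm_neg]
    exact h.2 j θ

theorem Near.div (h : Near Γ q δ u ρ) (h' : Near Γ q δ' u' ρ') :
    Near Γ q (δ + δ') (u / u') fun i => ρ i - ρ' i := by
  have h1 := h.mul h'.inv
  rw [← div_eq_mul_inv] at h1
  simpa only [sub_eq_add_neg] using h1

theorem Near.const {x : ℂ} (hx : x ≠ 0) (h : Γ.fn (u : A) = fun _ => x)
    (hq : |Real.log ‖x‖ / q| ≤ δ) : Near Γ q δ u 0 := by
  have hδ : 0 ≤ δ := (abs_nonneg _).trans hq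
  refine ⟨fun θ => ?_, fun j θ => ?_⟩
  · rw [h]
    simpa using hq
  · rw [h, lw_const]
    simpa using hδ

theorem Near.congr (h : Near Γ q δ u ρ) (hρ : ρ = ρ') : Near Γ q δ u ρ' := hρ ▸ h

theorem Near.mono (h : Near Γ q δ u ρ) (hδ : δ ≤ δ') : Near Γ q δ' u ρ :=
  ⟨fun θ => (h.1 θ).trans hδ, fun j θ => (h.2 j θ).trans hδ⟩

end near

/-- The regulators of symbols of units with given orders. -/
theorem reg_close.{v} {N : ℕ} (R : Matrix (Fin (N + 1)) (Fin (N + 1)) ℝ) {ε : ℝ} (hε : 0 < ε) :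
    ∃ δ : ℝ, 0 < δ ∧ ∀ (A : Type v) [CommRing A] (Γ : Torus A N) (q : ℝ), q ≠ 0 →
      ∀ u : Fin (N + 1) → Aˣ, (∀ l, Near Γ q δ (u l) (R l)) →
        |Γ.reg (symb u) / q - (2 * Real.pi) ^ N * R.det| ≤ ε := by
  obtain ⟨δ, hδ, h⟩ := pairing_close R hε
  refine ⟨δ / 2, by linarith, fun A _ Γ q hq u hu => ?_⟩
  rw [Torus.reg_symb]
  exact h _ q hq (fun l => Γ.good (u l))
    (fun l θ => ((hu l).1 θ).trans_lt (by linarith))
    (fun l j θ => ((hu l).2 j θ).trans_lt (by linarith))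

/-- The dimension of a torus may be replaced by an equal number. -/
theorem exists_cast {A : Type*} [CommRing A] {N N' : ℕ} (h : N = N') (Γ : Torus A N) :
    ∃ Γ' : Torus A N', (∀ θ' x, ∃ θ, Γ'.e θ' x = Γ.e θ x) ∧
      ∀ u : Fin (N + 1) → Aˣ, Γ'.reg (symb fun i => u (Fin.cast (by rw [h]) i)) =
        Γ.reg (symb u) := by
  subst h
  exact ⟨Γ, fun θ x => ⟨θ, rfl⟩, fun u => rfl⟩

end Pool.Agent.T6.H69.AF
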