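import Pool.Agent.TH333.CY.Ring
import Pool.Agent.TH577.UA.Dom
import Pool.Agent.T6.H69.AF.Def
set_option autoImplicit false

/-!
The coordinate rings of the hypersurfaces `∏_{j < r} (z_j² + κ_j z_j + 1) = Φ(x) ∏_{j < r} z_j` are
domains.
-/

namespace Pool.Agent.T6.H69.AF

open scoped WithZero

open Pool.Agent.TH333.CY (gpr iso iso_zero iso_succ iso_C iso_rename eval_gpr gpr_ne_zero
  irreducible_quad isRelPrime_fac)

section Domain

variable {K : Type*} [Field K] {s n : ℕ} {P : MvPolynomial (Fin (n + 1)) K} {lam : K}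

theorem bPhi_ne_C (hP : ∀ y, P ≠ MvPolynomial.C y) (hl : lam ≠ 0) (y : K) :
    bPhi P lam ≠ MvPolynomial.C y := by
  intro h
  apply hP (lam⁻¹ * y)
  have h1 : MvPolynomial.C lam⁻¹ * bPhi P lam = MvPolynomial.C lam⁻¹ * MvPolynomial.C y := by
    rw [h]
  unfold bPhi at h1
  rw [← mul_assoc, ← map_mul, inv_mul_cancel₀ hl, map_one, one_mul, ← map_mul] at h1
  exact h1

theorem bPhi_ne_zero (hP : ∀ y, P ≠ MvPolynomial.C y) (hl : lam ≠ 0) : bPhi P lam ≠ 0 := by
  intro h
  exact bPhi_ne_C hP hl 0 (by rw [h, map_zero])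

variable {κ : Fin (s + 1) → K}

theorem iso_feqn : iso K s (n + 1) (feqn P lam κ) =
    Polynomial.C (gpr κ n) * Polynomial.X ^ 2 +
      Polynomial.C (MvPolynomial.C (MvPolynomial.C (κ 0)) * gpr κ n -
        MvPolynomial.C (bPhi P lam) * ∏ j : Fin s, MvPolynomial.X j) * Polynomial.X +
      Polynomial.C (gpr κ n) := by
  unfold feqn zfac fPhi zmon gpr
  rw [Fin.prod_univ_succ, Fin.prod_univ_succ]
  simp only [map_sub, map_mul, map_add, map_pow, map_one, map_prod, iso_zero, iso_succ, iso_C,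
    iso_rename]
  ring

theorem irreducible_iso (hP : ∀ y, P ≠ MvPolynomial.C y) (hl : lam ≠ 0) {y : K} (hy : y ≠ 0)
    (hκ : ∀ j, y ^ 2 + κ j * y + 1 ≠ 0) : Irreducible (iso K s (n + 1) (feqn P lam κ)) := by
  rw [iso_feqn]
  have hF : bPhi P lam ≠ 0 := bPhi_ne_zero hP hl
  refine irreducible_quad (gpr_ne_zero κ) ?_ ?_
  · intro p h1 h2
    refine isRelPrime_fac (fun j : Fin s => MvPolynomial.C (κ j.succ)) hF h1 ?_
    have h3 : MvPolynomial.C (bPhi P lam) * ∏ j : Fin s, MvPolynomial.X j =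
        MvPolynomial.C (MvPolynomial.C (κ 0)) * gpr κ n -
        (MvPolynomial.C (MvPolynomial.C (κ 0)) * gpr κ n -
          MvPolynomial.C (bPhi P lam) * ∏ j : Fin s, MvPolynomial.X j) := by ring
    rw [h3]
    exact dvd_sub (Dvd.dvd.mul_left h1 _) h2
  · intro α β γ δ h1 h2 h3
    set φ : MvPolynomial (Fin s) (MvPolynomial (Fin (n + 1)) K) →+* MvPolynomial (Fin (n + 1)) K :=
      MvPolynomial.eval (fun _ : Fin s => (MvPolynomial.C y : MvPolynomial (Fin (n + 1)) K)) with hφ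
    set g : K := ∏ j : Fin s, (y ^ 2 + κ j.succ * y + 1) with hg
    have hg0 : g ≠ 0 := Finset.prod_ne_zero_iff.2 fun j _ => hκ j.succ
    have hgu : IsUnit (MvPolynomial.C g : MvPolynomial (Fin (n + 1)) K) :=
      (IsUnit.mk0 g hg0).map MvPolynomial.C
    have e1 := congrArg φ h1
    have e2 := congrArg φ h2
    have e3 := congrArg φ h3
    rw [map_mul, hφ, eval_gpr, ← hφ, ← hg] at e1 e2
    have u1 : IsUnit (φ α) := isUnit_of_mul_isUnit_left (e1 ▸ hgu)
    have u2 : IsUnit (φ γ) := isUnit_of_mul_isUnit_right (e1 ▸ hgu)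
    have u3 : IsUnit (φ β) := isUnit_of_mul_isUnit_left (e2 ▸ hgu)
    have u4 : IsUnit (φ δ) := isUnit_of_mul_isUnit_right (e2 ▸ hgu)
    obtain ⟨y1, -, w1⟩ := MvPolynomial.isUnit_iff_eq_C_of_isReduced.1 u1
    obtain ⟨y2, -, w2⟩ := MvPolynomial.isUnit_iff_eq_C_of_isReduced.1 u2
    obtain ⟨y3, -, w3⟩ := MvPolynomial.isUnit_iff_eq_C_of_isReduced.1 u3
    obtain ⟨y4, -, w4⟩ := MvPolynomial.isUnit_iff_eq_C_of_isReduced.1 u4
    rw [map_add, map_mul, map_mul, map_sub, map_mul, map_mul, map_prod, hφ, eval_gpr, ← hφ, ← hg,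
      w1, w2, w3, w4] at e3
    simp only [hφ, MvPolynomial.eval_C, MvPolynomial.eval_X, Finset.prod_const, Finset.card_univ,
      Fintype.card_fin] at e3
    have hys : y ^ s ≠ 0 := pow_ne_zero _ hy
    refine bPhi_ne_C hP hl ((κ 0 * g - (y1 * y4 + y3 * y2)) * (y ^ s)⁻¹) ?_
    have h5 : bPhi P lam * MvPolynomial.C (y ^ s) =
        MvPolynomial.C (κ 0 * g - (y1 * y4 + y3 * y2)) := by
      rw [map_sub, map_add, map_mul, map_mul, map_mul, map_pow]
      linear_combination e3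
    rw [map_mul, ← h5, mul_assoc, ← map_mul, mul_inv_cancel₀ hys, map_one, mul_one]

theorem isDomain_FRing (hP : ∀ y, P ≠ MvPolynomial.C y) (hl : lam ≠ 0) {y : K} (hy : y ≠ 0)
    (hκ : ∀ j, y ^ 2 + κ j * y + 1 ≠ 0) : IsDomain (FRing P lam κ) := by
  have hp : Prime (feqn P lam κ) := by
    rw [← MulEquiv.prime_iff (iso K s (n + 1))]
    exact (irreducible_iso hP hl hy hκ).prime
  have : (Ideal.span {feqn P lam κ}).IsPrime :=
    (Ideal.span_singleton_prime hp.ne_zero).2 hp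
  exact Ideal.Quotient.isDomain (Ideal.span {feqn P lam κ})

theorem fdel_ne_zero (hP : ∀ y, P ≠ MvPolynomial.C y) (hl : lam ≠ 0) : fdel P lam κ ≠ 0 := by
  intro h
  have h1 : fPhi P lam (s + 1) * zmon K (s + 1) n ∈ Ideal.span {feqn P lam κ} :=
    Ideal.Quotient.eq_zero_iff_mem.1 h
  rw [Ideal.mem_span_singleton] at h1
  have h2 := map_dvd (iso K s (n + 1)) h1
  have hF : bPhi P lam ≠ 0 := bPhi_ne_zero hP hl
  have hM : (MvPolynomial.C (bPhi P lam) * ∏ j : Fin s, MvPolynomial.X j :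
      MvPolynomial (Fin s) (MvPolynomial (Fin (n + 1)) K)) ≠ 0 := by
    refine mul_ne_zero ?_ (Finset.prod_ne_zero_iff.2 fun j _ => MvPolynomial.X_ne_zero j)
    rwa [Ne, MvPolynomial.C_eq_zero]
  have e : iso K s (n + 1) (fPhi P lam (s + 1) * zmon K (s + 1) n) =
      Polynomial.C (MvPolynomial.C (bPhi P lam) * ∏ j : Fin s, MvPolynomial.X j) *
        Polynomial.X := by
    unfold fPhi zmon
    rw [Fin.prod_univ_succ]
    simp only [map_mul, map_prod, iso_zero, iso_succ, iso_rename]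
    ring
  rw [e, iso_feqn] at h2
  have h3 := Polynomial.natDegree_le_of_dvd h2
    (mul_ne_zero (by rwa [Ne, Polynomial.C_eq_zero]) Polynomial.X_ne_zero)
  rw [Polynomial.natDegree_quadratic (gpr_ne_zero κ), Polynomial.natDegree_C_mul_X _ hM] at h3
  omega

end Domain

section Domain0

variable {K : Type*} [Field K] {n : ℕ} {P : MvPolynomial (Fin (n + 1)) K} {lam : K}
  {κ : Fin 0 → K}

theorem feqn_zero : feqn P lam κ = 1 - MvPolynomial.rename Sum.inr (bPhi P lam) := by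
  unfold feqn zmon fPhi
  rw [Finset.univ_eq_empty, Finset.prod_empty, Finset.prod_empty, mul_one]

/-- For `r = 0` the ring is a domain, if `Φ - 1` is irreducible. -/
theorem isDomain_FRing_zero (h : Irreducible (bPhi P lam - 1)) : IsDomain (FRing P lam κ) := by
  set e : MvPolynomial (Fin (n + 1)) K ≃ₐ[K] MvPolynomial (Fin 0 ⊕ Fin (n + 1)) K :=
    MvPolynomial.renameEquiv K (Equiv.emptySum (Fin 0) (Fin (n + 1))).symm with he
  have h1 : e (bPhi P lam - 1) = - feqn P lam κ := by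
    rw [feqn_zero, map_sub, map_one, neg_sub]
    rfl
  have h2 : Prime (e (bPhi P lam - 1)) := (MulEquiv.prime_iff e).2 h.prime
  have hp : Prime (feqn P lam κ) := by
    rw [h1] at h2
    exact (Associated.prime_iff (Associated.refl _).neg_left).1 h2
  have : (Ideal.span {feqn P lam κ}).IsPrime :=
    (Ideal.span_singleton_prime hp.ne_zero).2 hp
  exact Ideal.Quotient.isDomain (Ideal.span {feqn P lam κ})

theorem fdel_zero : fdel P lam κ = 1 := by
  have h := fpol_feqn P lam κ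
  unfold feqn at h
  rw [map_sub, Finset.univ_eq_empty, Finset.prod_empty, map_one, sub_eq_zero] at h
  exact h.symm

end Domain0

section LiftT

variable {K : Type*} [Field K] {r n : ℕ} {P : MvPolynomial (Fin (n + 1)) K} {lam : K}
  {κ : Fin r → K} {S : Type*} [Field S]

/-- The extension of a homomorphism with `Φ ∏_j z_j ↦ g ≠ 0` to the ring of the open part. -/
noncomputable def liftF (g : FRing P lam κ →+* S) (hg : g (fdel P lam κ) ≠ 0) :
    FOpen P lam κ →+* S :=
  AdjoinRoot.lift g (g (fdel P lam κ))⁻¹ (by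
    unfold feqnO
    simp only [Polynomial.eval₂_sub, Polynomial.eval₂_mul, Polynomial.eval₂_X,
      Polynomial.eval₂_C, Polynomial.eval₂_one]
    rw [mul_inv_cancel₀ hg, sub_self])

theorem liftF_toF (g : FRing P lam κ →+* S) (hg : g (fdel P lam κ) ≠ 0)
    (b : FRing P lam κ) : liftF g hg (toF P lam κ b) = g b :=
  AdjoinRoot.lift_of _

theorem liftF_mk (g : FRing P lam κ →+* S) (hg : g (fdel P lam κ) ≠ 0)
    (p : Polynomial (FRing P lam κ)) :
    liftF g hg (AdjoinRoot.mk (feqnO P lam κ) p : AdjoinRoot (feqnO P lam κ)) =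
      p.eval₂ g (g (fdel P lam κ))⁻¹ :=
  AdjoinRoot.lift_mk _ p

end LiftT

end Pool.Agent.T6.H69.AF
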