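import Pool.Agent.T6.H69.AF.Ring
import Pool.Agent.T6.H69.AF.Def
import Pool.Agent.TH333.CY.Unram
import Pool.Agent.Y797.IV.Unr
set_option autoImplicit false

/-!
Arrangements of hyperplanes: the symbols of the bases on the hypersurfaces
`∏_{j < r} (z_j + κ_j + 1/z_j) = λ g ∏_e L_e ^ (w_e + 1)` are unramified at all discrete valuations.
-/

namespace Pool.Agent.T6.H69.AF

open scoped WithZero

open Pool.Agent.TH826.MK hiding fx

open Pool.Agent.TH333.CY (all_one val_pow_sub_one)

open Pool.Agent.TH826.GA (cm vtx al lf ku coe_ku)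

open Pool.Agent.TH577.UA (hi kap kap_ne)

open Pool.Agent.Y797.IV (degM fx ev ev_zero bound x_le entry_one yh)

section adm

variable {K : Type*} [Field K] {n m : ℕ}

/-- The number `D` clears the denominators of the coordinates of the vertices and of the values of
the forms at the vertices. -/
structure Adm (c : Fin (m + 1) → Fin (n + 1) → K) (a : Fin (m + 1) → K) (D : K) : Prop where
  ne : D ≠ 0
  int : IsIntegral ℤ D
  vert : ∀ T : Fin (n + 1) → Fin (m + 1), (cm c T).det ≠ 0 → ∀ j, IsIntegral ℤ (D * vtx c a T j)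
  val : ∀ T : Fin (n + 1) → Fin (m + 1), (cm c T).det ≠ 0 → ∀ e,
    IsIntegral ℤ (D * (∑ j, c e j * vtx c a T j - a e))

end adm

section Unram

variable {K : Type*} [Field K] {r n m : ℕ} {P : MvPolynomial (Fin (n + 1)) K}
  {lam : K} {κ : Fin r → K} {L : Type*} [Field L]

section gen

variable (f : FOpen P lam κ →+* L)

/-- the composite map from the polynomials in `x_0, ..., x_n` -/
noncomputable def xF : MvPolynomial (Fin (n + 1)) K →+* L :=
  ((f.comp (toF P lam κ)).comp (fpol P lam κ)).comp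
    (MvPolynomial.rename (Sum.inr : Fin (n + 1) → Fin r ⊕ Fin (n + 1))).toRingHom

theorem xF_apply (p : MvPolynomial (Fin (n + 1)) K) :
    xF f p = f (toF P lam κ (fpol P lam κ (MvPolynomial.rename Sum.inr p))) := rfl

/-- the composite map from the coefficient field -/
noncomputable def cF : K →+* L := f.comp (fcst P lam κ)

theorem xF_C (y : K) : xF f (MvPolynomial.C y) = cF f y := by
  rw [xF_apply, MvPolynomial.rename_C]
  rfl

/-- the image of `z_j` -/
noncomputable def zF (j : Fin r) : L := f (toF P lam κ (fpol P lam κ (MvPolynomial.X (Sum.inl j))))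

theorem map_zfac (j : Fin r) : f (toF P lam κ (fpol P lam κ (zfac κ n j))) =
    zF f j ^ 2 + cF f (κ j) * zF f j + 1 := by
  unfold zfac
  simp only [map_add, map_mul, map_pow, map_one]
  rfl

theorem zF_eq : ∏ j, (zF f j ^ 2 + cF f (κ j) * zF f j + 1) =
    xF f (bPhi P lam) * ∏ j, zF f j := by
  have h := congrArg (fun b => f (toF P lam κ b)) (fpol_feqn P lam κ)
  unfold feqn zmon at h
  simp only [map_sub, map_mul, map_zero, map_prod, map_zfac, sub_eq_zero] at h
  exact h

theorem zF_ne_zero (j : Fin r) : zF f j ≠ 0 := ((isUnit_fz P lam κ j).map f).ne_zero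

theorem bPhi_map_ne_zero : xF f (bPhi P lam) ≠ 0 := by
  have h := ((isUnit_fdel P lam κ).map f).ne_zero
  unfold fdel at h
  rw [map_mul, map_mul, map_mul] at h
  exact left_ne_zero_of_mul h

/-- If the valuation of `Φ` is at most `1`, then the valuations of `Φ` and of all the `z_j` are `1`,
or one of the `z_j` is a root of unity modulo the valuation. -/
theorem z_alternative (v : Valuation L ℤᵐ⁰) (hκ : ∀ j, IsIntegral ℤ (κ j)) {N : ℕ}
    (hN : ∀ j, (Polynomial.X ^ 2 + Polynomial.C (κ j) * Polynomial.X + 1 : Polynomial K) ∣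
      Polynomial.X ^ N - 1) (hPhi : v (xF f (bPhi P lam)) ≤ 1) :
    (∃ j, v (zF f j ^ N - 1) < 1) ∨ (v (xF f (bPhi P lam)) = 1 ∧ ∀ j, v (zF f j) = 1) := by
  classical
  have hc : ∀ x : K, IsIntegral ℤ x → v (cF f x) ≤ 1 := fun x hx =>
    val_le_one_of_integral v (map_isIntegral_int _ hx)
  by_cases hB1 : ∃ j, v (zF f j) = 1 ∧ v (zF f j ^ 2 + cF f (κ j) * zF f j + 1) < 1
  · obtain ⟨j, hj1, hj2⟩ := hB1
    exact Or.inl ⟨j, val_pow_sub_one (cF f) v (hκ j) (hN j) hj1.le hj2⟩
  · right
    push Not at hB1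
    have hlow : ∀ j, v (zF f j) < 1 → v (zF f j ^ 2 + cF f (κ j) * zF f j + 1) = 1 := by
      intro j hj
      rw [add_comm]
      refine Valuation.map_one_add_of_lt v ?_
      refine (v.map_add _ _).trans_lt (max_lt ?_ ?_)
      · rw [map_pow]
        exact pow_lt_one₀ zero_le hj (by norm_num)
      · rw [map_mul]
        calc _ ≤ 1 * v (zF f j) := mul_le_mul' (hc _ (hκ j)) le_rfl
          _ = v (zF f j) := one_mul _
          _ < 1 := hj
    have hhigh : ∀ j, 1 < v (zF f j) →
        v (zF f j ^ 2 + cF f (κ j) * zF f j + 1) = v (zF f j) ^ 2 := by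
      intro j hj
      have hj2 : v (zF f j) < v (zF f j) ^ 2 := by
        rw [pow_two]
        exact lt_mul_of_one_lt_left (zero_lt_one.trans hj) hj
      rw [add_assoc, ← map_pow]
      refine Valuation.map_add_eq_of_lt_left v ?_
      rw [map_pow]
      refine (v.map_add _ _).trans_lt (max_lt ?_ ?_)
      · rw [map_mul]
        calc _ ≤ 1 * v (zF f j) := mul_le_mul' (hc _ (hκ j)) le_rfl
          _ = v (zF f j) := one_mul _
          _ < _ := hj2
      · rw [map_one]
        exact hj.trans hj2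
    have hg0 : ∀ j, v (zF f j ^ 2 + cF f (κ j) * zF f j + 1) ≠ 0 := by
      intro j h0
      have h1 := congrArg v (zF_eq f)
      rw [map_prod, Finset.prod_eq_zero (Finset.mem_univ j) h0] at h1
      have h2 : xF f (bPhi P lam) * ∏ j, zF f j ≠ 0 :=
        mul_ne_zero (bPhi_map_ne_zero f)
          (Finset.prod_ne_zero_iff.2 fun j _ => zF_ne_zero f j)
      exact (Valuation.ne_zero_iff v).2 h2 h1.symm
    have ht : ∀ j, v (zF f j) / v (zF f j ^ 2 + cF f (κ j) * zF f j + 1) ≤ 1 := by
      intro j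
      rw [div_le_one₀ (zero_lt_iff.2 (hg0 j))]
      rcases lt_trichotomy (v (zF f j)) 1 with h | h | h
      · rw [hlow j h]
        exact h.le
      · rw [h]
        exact hB1 j h
      · rw [hhigh j h, pow_two]
        exact (lt_mul_of_one_lt_left (zero_lt_one.trans h) h).le
    have hprod : v (xF f (bPhi P lam)) *
        ∏ j, (v (zF f j) / v (zF f j ^ 2 + cF f (κ j) * zF f j + 1)) = 1 := by
      have h1 := congrArg v (zF_eq f)
      rw [map_mul, map_prod, map_prod] at h1
      rw [Finset.prod_div_distrib, ← mul_div_assoc, ← h1]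
      exact div_self (Finset.prod_ne_zero_iff.2 fun j _ => hg0 j)
    obtain ⟨hP1, hz1⟩ := all_one ht hPhi hprod
    refine ⟨hP1, fun j => ?_⟩
    have h1 := hz1 j
    rw [div_eq_one_iff_eq (hg0 j)] at h1
    rcases lt_trichotomy (v (zF f j)) 1 with h | h | h
    · rw [hlow j h] at h1
      exact h1
    · exact h
    · rw [hhigh j h, pow_two] at h1
      exact absurd h1 (lt_mul_of_one_lt_left (zero_lt_one.trans h) h).ne

end gen

section arr

variable {g : MvPolynomial (Fin (n + 1)) K} {w : Fin (m + 1) → ℕ}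
  {c : Fin (m + 1) → Fin (n + 1) → K} {a : Fin (m + 1) → K}
  (f : FOpen (aP g w c a) lam κ →+* L)

/-- the image of `x_j` -/
noncomputable def xx (j : Fin (n + 1)) : L := xF f (MvPolynomial.X j)

theorem xF_lf (e : Fin (m + 1)) : xF f (lf c a e) = fx (cF f) (xx f) c a e := by
  unfold fx lf xx
  rw [map_sub, map_sum, xF_C]
  simp only [map_mul, xF_C]

theorem xF_bPhi : xF f (bPhi (aP g w c a) lam) =
    (cF f lam * xF f g) * ∏ e, fx (cF f) (xx f) c a e ^ (w e + 1) := by
  have h1 : bPhi (aP g w c a) lam = MvPolynomial.C lam * (g * ∏ e, lf c a e ^ (w e + 1)) := rfl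
  rw [h1, map_mul, map_mul, xF_C, map_prod, mul_assoc]
  simp only [map_pow, xF_lf]

/-- The valuation of `λ g(x)`, if the coordinates are integral after multiplication by `D`. -/
theorem val_g_le (F : MvPolynomial (Fin (n + 1)) K →+* L) (v : Valuation L ℤᵐ⁰)
    {g : MvPolynomial (Fin (n + 1)) K} {w : Fin (m + 1) → ℕ} {D lam : K} (hD0 : D ≠ 0)
    (hDi : IsIntegral ℤ D)
    (hlam : ∀ k, IsIntegral ℤ (lam * g.coeff k / D ^ degM g w))
    (hx : ∀ j, v (F (MvPolynomial.X j)) ≤ (v (F (MvPolynomial.C D)))⁻¹) :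
    v (F (MvPolynomial.C lam) * F g) ≤ v (F (MvPolynomial.C D)) ^ (∑ e, (w e + 1)) := by
  classical
  set φ : K →+* L := F.comp (MvPolynomial.C : K →+* MvPolynomial (Fin (n + 1)) K) with hφ
  have hφC : ∀ y, F (MvPolynomial.C y) = φ y := fun y => rfl
  simp only [hφC] at hx ⊢
  have hDL : v (φ D) ≠ 0 := by
    rw [Valuation.ne_zero_iff]
    exact (map_ne_zero _).2 hD0
  have hDle : v (φ D) ≤ 1 := val_le_one_of_integral v (map_isIntegral_int _ hDi)
  set B : ℤᵐ⁰ := (v (φ D))⁻¹ with hBdef
  have hB1 : 1 ≤ B := (one_le_inv₀ (zero_lt_iff.2 hDL)).2 hDle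
  have hsum : F g = ∑ k ∈ g.support, F (MvPolynomial.monomial k (g.coeff k)) := by
    conv_lhs => rw [g.as_sum]
    rw [map_sum]
  rw [hsum, Finset.mul_sum]
  refine Valuation.map_sum_le _ fun k hk => ?_
  have e3 : F (MvPolynomial.monomial k (g.coeff k)) =
      φ (g.coeff k) * ∏ l, F (MvPolynomial.X l) ^ k l := by
    rw [MvPolynomial.monomial_eq, map_mul, Finsupp.prod_fintype _ _ (fun i => pow_zero _), hφC]
    simp only [map_prod, map_pow]
  have hDp : D ^ degM g w ≠ 0 := pow_ne_zero _ hD0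
  have e4 : φ lam * φ (g.coeff k) =
      φ (lam * g.coeff k / D ^ degM g w) * φ D ^ degM g w := by
    rw [← map_mul, ← map_pow, ← map_mul, div_mul_cancel₀ _ hDp]
  have h1 : ∏ l, v (F (MvPolynomial.X l) ^ k l) ≤ B ^ g.totalDegree := by
    calc ∏ j, v (F (MvPolynomial.X j) ^ k j) ≤ ∏ j, B ^ k j := by
          refine Finset.prod_le_prod' fun j _ => ?_
          rw [map_pow]
          exact pow_le_pow_left' (hx j) _
      _ = B ^ (∑ j, k j) := (Finset.prod_pow_eq_pow_sum _ _ _)
      _ ≤ B ^ g.totalDegree := by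
          refine pow_le_pow_right' hB1 ?_
          have h2 := MvPolynomial.le_totalDegree hk
          rwa [Finsupp.sum_fintype _ _ (fun _ => rfl)] at h2
  rw [e3, ← mul_assoc, e4, map_mul, map_mul, map_prod, map_pow]
  calc v (φ (lam * g.coeff k / D ^ degM g w)) * v (φ D) ^ degM g w *
        ∏ l, v (F (MvPolynomial.X l) ^ k l)
      ≤ 1 * v (φ D) ^ degM g w * B ^ g.totalDegree :=
        mul_le_mul' (mul_le_mul' (val_le_one_of_integral v (map_isIntegral_int _ (hlam k)))
          le_rfl) h1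
    _ = v (φ D) ^ (∑ e, (w e + 1)) := by
        rw [one_mul]
        unfold degM
        rw [pow_add, mul_right_comm, hBdef, ← mul_pow, mul_inv_cancel₀ hDL, one_pow, one_mul]

/-- The symbols are unramified at all discrete valuations. -/
theorem symb_mem_unitPart {D : K} (hA : Adm c a D)
    (hlam : ∀ k, IsIntegral ℤ (lam * g.coeff k / D ^ degM g w))
    (hκ : ∀ j, IsIntegral ℤ (κ j)) {N : ℕ} (hN0 : N ≠ 0)
    (hN : ∀ j, (Polynomial.X ^ 2 + Polynomial.C (κ j) * Polynomial.X + 1 : Polynomial K) ∣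
      Polynomial.X ^ N - 1)
    (v : Valuation L ℤᵐ⁰) {T : Fin (n + 1) → Fin (m + 1)} (hT : (cm c T).det ≠ 0) :
    symb (fun l => Units.map (f : FOpen (aP g w c a) lam κ →* L) (fent g w c a lam κ T l)) ∈
      unitPart v (r + (n + 1)) := by
  classical
  obtain ⟨hD0, hDi, hDv, hDf⟩ := hA
  have hci : ∀ x : K, IsIntegral ℤ x → v (cF f x) ≤ 1 := fun x hx =>
    val_le_one_of_integral v (map_isIntegral_int _ hx)
  set wz : Fin r → Lˣ := fun j => Units.map (f : FOpen (aP g w c a) lam κ →* L)
    (fz (aP g w c a) lam κ j) with hwz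
  set z : Fin (n + 1) → Lˣ := fun k => Units.map (f : FOpen (aP g w c a) lam κ →* L)
    (Units.map (fcst (aP g w c a) lam κ : K →* FOpen (aP g w c a) lam κ) (ku (kap c T k)) *
      fl g w c a lam κ (T k)) with hz
  set b : Fin (m + 1) → Lˣ := fun e => Units.map (f : FOpen (aP g w c a) lam κ →* L)
    (fl g w c a lam κ e) with hb
  have hwzv : ∀ j, (wz j : L) = zF f j := fun j => rfl
  have hbv : ∀ e, (b e : L) = fx (cF f) (xx f) c a e := fun e => xF_lf f e
  have hzv : ∀ k, (z k : L) = cF f (kap c T k) * fx (cF f) (xx f) c a (T k) := by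
    intro k
    rw [hz, ← xF_lf]
    simp only [map_mul, Units.val_mul]
    congr 1
    show f (fcst (aP g w c a) lam κ (ku (kap c T k) : K)) = _
    rw [coe_ku (kap_ne hT k)]
    rfl
  have hent : (fun l => Units.map (f : FOpen (aP g w c a) lam κ →* L) (fent g w c a lam κ T l)) =
      (Fin.append wz fun k => z k / b (hi c T k) : Fin (r + (n + 1)) → Lˣ) := by
    funext l
    unfold fent
    refine Fin.addCases (fun j => ?_) (fun j => ?_) l
    · rw [Fin.append_left, Fin.append_left]
    · rw [Fin.append_right, Fin.append_right]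
      unfold fe
      simp only [hz, hb, map_mul, map_div]
      rw [mul_div_assoc]
  rw [hent]
  by_cases hB : ∃ k0, v (fx (cF f) (xx f) c a (hi c T k0) -
      ∑ k ∈ Finset.univ.filter (fun k => hi c T k = hi c T k0),
        cF f (kap c T k) * fx (cF f) (xx f) c a (T k)) <
      v (cF f (kap c T k0) * fx (cF f) (xx f) c a (T k0))
  · obtain ⟨k0, hk0⟩ := hB
    refine Pool.Agent.Y797.IV.mem_unitPart_of_block v _
      ((Finset.univ.filter fun k => hi c T k = hi c T k0).map (Fin.natAddEmb r))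
      (Fin.append (fun _ => 1) z) (b (hi c T k0)) (fun k hk => ?_) (l := Fin.natAdd r k0)
      (Finset.mem_map.2 ⟨k0, Finset.mem_filter.2 ⟨Finset.mem_univ _, rfl⟩, rfl⟩) ?_
    · obtain ⟨k1, hk1, rfl⟩ := Finset.mem_map.1 hk
      rw [Fin.natAddEmb_apply, Fin.append_right, Fin.append_right, (Finset.mem_filter.1 hk1).2]
    · rw [Finset.sum_map]
      simp only [Fin.natAddEmb_apply, Fin.append_right, hzv, hbv]
      exact hk0
  · push Not at hB
    have hDL : v (cF f D) ≠ 0 := by
      rw [Valuation.ne_zero_iff]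
      exact (map_ne_zero _).2 hD0
    set B : ℤᵐ⁰ := (v (cF f D))⁻¹ with hBdef
    have hB0 : B ≠ 0 := inv_ne_zero hDL
    have hof : ∀ y : K, IsIntegral ℤ (D * y) → v (cF f y) ≤ B := by
      intro y hy
      have h1 := hci _ hy
      rw [map_mul, map_mul, mul_comm] at h1
      exact (le_mul_inv_iff₀ (zero_lt_iff.2 hDL)).2 (by simpa using h1) |>.trans_eq (one_mul _)
    have hvt : ∀ T' : Fin (n + 1) → Fin (m + 1), (cm c T').det ≠ 0 → ∀ j,
        v (cF f (vtx c a T' j)) ≤ B := fun T' hT' j => hof _ (hDv T' hT' j)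
    have hft : ∀ T' : Fin (n + 1) → Fin (m + 1), (cm c T').det ≠ 0 → ∀ e,
        v (cF f (∑ j, c e j * vtx c a T' j - a e)) ≤ B := fun T' hT' e => hof _ (hDf T' hT' e)
    have hx : ∀ j, v (xx f j) ≤ B := fun j => x_le v hT hB hvt j
    have hle : ∀ e, v (fx (cF f) (xx f) c a e) ≤ B := by
      intro e
      have h1 := bound v hT hB (m + 1) 0 (by omega) (c e) (-a e) (B := B)
        (fun T' hT' => by
          have h2 := hft T' hT'.1 e
          rwa [sub_eq_add_neg] at h2)
      rwa [ev_zero (cF f) (xx f) hT e] at h1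
    have hy : ∀ e, v (cF f D * fx (cF f) (xx f) c a e) ≤ 1 := by
      intro e
      rw [map_mul]
      calc v (cF f D) * v (fx (cF f) (xx f) c a e) ≤ v (cF f D) * B := mul_le_mul' le_rfl (hle e)
        _ = 1 := mul_inv_cancel₀ hDL
    have hcD : cF f D ≠ 0 := (map_ne_zero _).2 hD0
    set u : L := (cF f lam * xF f g) / cF f D ^ (∑ e, (w e + 1)) with hu
    have hu1 : v u ≤ 1 := by
      rw [hu, map_div₀, map_pow, div_le_one₀ (pow_pos (zero_lt_iff.2 hDL) _)]
      have h1 := val_g_le (xF f) v (w := w) hD0 hDi hlam (by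
        intro j
        rw [xF_C]
        exact hx j)
      rwa [xF_C, xF_C] at h1
    have hPhieq : xF f (bPhi (aP g w c a) lam) = u * ∏ e : (e : Fin (m + 1)) × Fin (w e + 1),
        (cF f D * fx (cF f) (xx f) c a e.1) := by
      rw [xF_bPhi, Fintype.prod_sigma]
      simp only [Finset.prod_const, Finset.card_univ, Fintype.card_fin, mul_pow,
        Finset.prod_mul_distrib]
      rw [Finset.prod_pow_eq_pow_sum, hu, ← mul_assoc, div_mul_cancel₀ _ (pow_ne_zero _ hcD)]
    have hPhi : v (xF f (bPhi (aP g w c a) lam)) ≤ 1 := by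
      rw [hPhieq, map_mul, map_prod]
      exact mul_le_one' hu1 (Finset.prod_le_one' fun e _ => hy e.1)
    rcases z_alternative f v hκ hN hPhi with ⟨j, hj⟩ | ⟨hP1, hz1⟩
    · refine mem_unitPart_of_pow v (Fin.castAdd (n + 1) j) (m := N) _ hN0 ?_
      rw [Fin.append_left, hwzv]
      exact hj
    · rw [hPhieq, map_mul, map_prod] at hP1
      obtain ⟨-, hl1⟩ := all_one (fun e : (e : Fin (m + 1)) × Fin (w e + 1) => hy e.1) hu1 hP1
      have hall : ∀ e, v (fx (cF f) (xx f) c a e) = B := by
        intro e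
        have h1 := hl1 ⟨e, 0⟩
        rw [map_mul] at h1
        exact eq_inv_of_mul_eq_one_right h1
      refine Submodule.subset_span ⟨_, fun l => ?_, rfl⟩
      refine Fin.addCases (fun j => ?_) (fun j => ?_) l
      · rw [Fin.append_left]
        exact hz1 j
      · rw [Fin.append_right, Units.val_div_eq_div_val, map_div₀, hzv, hbv,
          entry_one v hT hB hft hall j, div_self]
        rw [hall]
        exact hB0

theorem symb_mem_unramified {D : K} (hA : Adm c a D)
    (hlam : ∀ k, IsIntegral ℤ (lam * g.coeff k / D ^ degM g w))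
    (hκ : ∀ j, IsIntegral ℤ (κ j)) {N : ℕ} (hN0 : N ≠ 0)
    (hN : ∀ j, (Polynomial.X ^ 2 + Polynomial.C (κ j) * Polynomial.X + 1 : Polynomial K) ∣
      Polynomial.X ^ N - 1) {T : Fin (n + 1) → Fin (m + 1)} (hT : (cm c T).det ≠ 0) :
    KQ.map (r + (n + 1)) f (symb (fent g w c a lam κ T)) ∈ Unramified L (r + (n + 1)) := by
  rw [KQ.map_symb]
  unfold Unramified
  simp only [Submodule.mem_iInf]
  intro v _
  exact symb_mem_unitPart f hA hlam hκ hN0 hN v hT

end arr

end Unram

end Pool.Agent.T6.H69.AF
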