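import Pool.Agent.T6.H69.AF.Ev
import Pool.Agent.T6.H69.AF.Unr
import Pool.Agent.T6.H69.AF.Low
import Pool.Agent.T6.H69.AF.Near
import Pool.Agent.T6.H53.CT.Root
import Pool.Agent.T6.H53.CT.Det
set_option autoImplicit false

/-!
The tori near the vertices of the arrangement on the fibrations
`∏_{j ≤ s} (z_j + κ_j + 1/z_j) = λ g ∏_e L_e ^ (w_e + 1)`.
-/

namespace Pool.Agent.T6.H69.AF

open Pool.Agent.TH826.MK hiding fx

open Pool.Agent.TH333.CY (good_inv lw_inv)

open Pool.Agent.TH826.GA (cm vtx al be lf)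

open Pool.Agent.TH577.UA (Distinct)

open Pool.Agent.Y797.TW (IsLow hh mch nex exists_rapid eval_mch hh_zero contDiff_hh)

open Pool.Agent.T6.H53.CT (exists_root exists_mono)

open MvPolynomial (bind₁ map)

section main

variable {K : Type*} [Field K] {s n m : ℕ} {g : MvPolynomial (Fin (n + 1)) K}
  {w : Fin (m + 1) → ℕ} {c : Fin (m + 1) → Fin (n + 1) → K} {a : Fin (m + 1) → K}

/-- the index set of the factors: the factors of `Φ`, the `z_j`, and the `z_j² + κ_j z_j + 1`,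
`j ≥ 1` -/
abbrev Idx (w : Fin (m + 1) → ℕ) (s : ℕ) : Type :=
  Option ((e : Fin (m + 1)) × Fin (w e + 1)) ⊕ (Fin s ⊕ Fin s)

/-- the exponents of the monomials -/
def muI (s : ℕ) (k : Fin (n + 1) → ℕ)
    (al : Option ((e : Fin (m + 1)) × Fin (w e + 1)) → Fin (n + 1) →₀ ℕ) :
    Idx w s → Fin (s + (n + 1)) → ℕ
  | Sum.inl e => Fin.append (fun _ : Fin s => 0) fun l => nex k (fun i => al e i) l
  | Sum.inr (Sum.inl j) => fun l => if l = Fin.castAdd (n + 1) j then 1 else 0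
  | Sum.inr (Sum.inr _) => fun _ => 0

/-- the other factors -/
noncomputable def hI (σ : K →+* ℂ) (κ : Fin (s + 1) → K) (k : Fin (n + 1) → ℕ)
    (g : MvPolynomial (Fin (n + 1)) K) (c : Fin (m + 1) → Fin (n + 1) → K) (a : Fin (m + 1) → K)
    (T : Fin (n + 1) → Fin (m + 1))
    (al : Option ((e : Fin (m + 1)) × Fin (w e + 1)) → Fin (n + 1) →₀ ℕ) :
    Idx w s → (Fin (s + (n + 1)) → ℂ) → ℂ
  | Sum.inl e => fun v => hh k (bind₁ (xc σ c a T) (map σ (afct g w c a e))) (al e)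
      fun l => v (Fin.natAdd s l)
  | Sum.inr (Sum.inl _) => fun _ => 1
  | Sum.inr (Sum.inr j) => fun v => v (Fin.castAdd (n + 1) j) ^ 2 +
      σ (κ j.succ) * v (Fin.castAdd (n + 1) j) + 1

theorem eval_aP (σ : K →+* ℂ) (x : Fin (n + 1) → ℂ) :
    MvPolynomial.eval₂ σ x (aP g w c a) =
      ∏ e, MvPolynomial.eval₂ σ x (afct g w c a e) := by
  rw [Fintype.prod_option, Fintype.prod_sigma]
  unfold aP
  rw [MvPolynomial.eval₂_mul, MvPolynomial.eval₂_prod]
  simp only [MvPolynomial.eval₂_pow, afct, Finset.prod_const, Finset.card_univ, Fintype.card_fin]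

theorem exists_near_succ (σ : K →+* ℂ) (κ : Fin (s + 1) → K) {T : Fin (n + 1) → Fin (m + 1)}
    (hT : (cm c T).det ≠ 0) (hD : Distinct c a) (hg : g ≠ 0) :
    ∃ (k : Fin (n + 1) → ℕ) (W0 : Fin (s + (n + 1)) → ℝ), ∀ ε : ℝ, 0 < ε → ∃ Λ : ℝ, 1 < Λ ∧
      ∀ lam : K, Λ ≤ ‖σ lam‖ → ∃ Γ : Torus (FOpen (aP g w c a) lam κ) (s + (n + 1)),
        (∀ θ x, Γ.e θ (fcst (aP g w c a) lam κ x) = σ x) ∧
        Near Γ (Real.log ‖σ lam‖) ε (fz (aP g w c a) lam κ 0) (Fin.cons 1 W0) ∧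
        (∀ j : Fin s, Near Γ (Real.log ‖σ lam‖) ε (fz (aP g w c a) lam κ j.succ)
          (Fin.cons 0 fun i => if i = Fin.castAdd (n + 1) j then 1 else 0)) ∧
        ∀ e, Near Γ (Real.log ‖σ lam‖) ε (fl g w c a lam κ e)
          (Fin.cons 0 (Fin.append (fun _ : Fin s => 0)
            fun l => ((nex k (fun i => lo c a T e i) l : ℕ) : ℝ))) := by
  classical
  obtain ⟨al, hal, hals⟩ := exists_lows (a := a) σ hT hD hg w
  set D0 : ℕ := ∑ e, ∑ j, al e j with hD0
  have hDb : ∀ e j, al e j ≤ D0 := fun e j =>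
    (Finset.single_le_sum (f := fun j => al e j) (fun _ _ => Nat.zero_le _)
      (Finset.mem_univ j)).trans
    (Finset.single_le_sum (f := fun e => ∑ j, al e j) (fun _ _ => Nat.zero_le _)
      (Finset.mem_univ e))
  obtain ⟨k, hk⟩ := exists_rapid D0 (n + 1)
  set x := xc σ c a T with hx
  set μ : Idx w s → Fin (s + (n + 1)) → ℕ := muI s k al with hμ
  set W0 : Fin (s + (n + 1)) → ℝ := fun j => ∑ i, (μ i j : ℝ) with hW0
  refine ⟨k, W0, fun ε hε => ?_⟩
  set n1 : ℝ := (Fintype.card (Idx w s) : ℝ) with hn1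
  have hn0 : (0 : ℝ) ≤ n1 := Nat.cast_nonneg _
  set δ0 : ℝ := ε / (n1 + 1) with hδ0
  have hδ0pos : 0 < δ0 := by positivity
  have hδε : (n1 + 1) * δ0 = ε := by
    rw [hδ0]
    field_simp
  have hδε1 : δ0 ≤ ε := by nlinarith
  obtain ⟨C1, W, hC1, hWc, hWp, hWg, hWest⟩ := exists_mono (ι := Idx w s) μ
    (h := hI σ κ k g c a T al)
    (fun e => by
      rcases e with e | j | j
      · exact (contDiff_hh k _ _).comp (contDiff_pi.2 fun k => contDiff_apply ℂ ℂ _)
      · exact contDiff_const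
      · exact (((contDiff_apply ℂ ℂ _).pow 2).add
          (contDiff_const.mul (contDiff_apply ℂ ℂ _))).add contDiff_const)
    (fun e => by
      rcases e with e | j | j
      · exact hh_zero hk (hal e) (hDb e)
      · exact one_ne_zero
      · show (0 : Fin (s + (n + 1)) → ℂ) (Fin.castAdd (n + 1) j) ^ 2 +
          σ (κ j.succ) * (0 : Fin (s + (n + 1)) → ℂ) (Fin.castAdd (n + 1) j) + 1 ≠ 0
        simp) hδ0pos
  -- the base point
  set V : (Fin (s + (n + 1)) → ℝ) → (Fin (n + 1) → ℂ) := fun θ l => W θ (Fin.natAdd s l) with hV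
  set X : (Fin (s + (n + 1)) → ℝ) → (Fin (n + 1) → ℂ) := fun θ j =>
    MvPolynomial.eval (mch k (V θ)) (x j) with hXdef
  have hval : ∀ (p : MvPolynomial (Fin (n + 1)) K) θ, MvPolynomial.eval₂ σ (X θ) p =
      MvPolynomial.eval (mch k (V θ)) (bind₁ x (map σ p)) := by
    intro p θ
    unfold MvPolynomial.eval
    rw [MvPolynomial.eval₂Hom_bind₁]
    show _ = MvPolynomial.eval₂ (RingHom.id ℂ) _ (map σ p)
    rw [MvPolynomial.eval₂_map, RingHom.id_comp]
    rfl
  -- the functions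
  have hHe : ∀ e θ, (∏ l, W θ l ^ μ (Sum.inl e) l) * hI σ κ k g c a T al (Sum.inl e) (W θ) =
      MvPolynomial.eval₂ σ (X θ) (afct g w c a e) := by
    intro e θ
    rw [hval, eval_mch hk (hal e) (hDb e), Fin.prod_univ_add]
    have h1 : ∏ i : Fin s, W θ (Fin.castAdd (n + 1) i) ^ μ (Sum.inl e) (Fin.castAdd (n + 1) i) =
        1 := by
      refine Finset.prod_eq_one fun i _ => ?_
      have h2 : μ (Sum.inl e) (Fin.castAdd (n + 1) i) = 0 :=
        Fin.append_left (fun _ : Fin s => 0) (fun l => nex k (fun i => al e i) l) i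
      rw [h2, pow_zero]
    rw [h1, one_mul]
    congr 1
    refine Finset.prod_congr rfl fun l _ => ?_
    have h2 : μ (Sum.inl e) (Fin.natAdd s l) = nex k (fun i => al e i) l :=
      Fin.append_right (fun _ : Fin s => 0) (fun l => nex k (fun i => al e i) l) l
    rw [h2]
  have hHz : ∀ j θ, (∏ l, W θ l ^ μ (Sum.inr (Sum.inl j)) l) *
      hI σ κ k g c a T al (Sum.inr (Sum.inl j)) (W θ) = W θ (Fin.castAdd (n + 1) j) := by
    intro j θ
    have h1 : hI σ κ k g c a T al (Sum.inr (Sum.inl j)) (W θ) = 1 := rfl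
    rw [h1, mul_one, Finset.prod_eq_single (Fin.castAdd (n + 1) j)]
    · have h2 : μ (Sum.inr (Sum.inl j)) (Fin.castAdd (n + 1) j) = 1 := if_pos rfl
      rw [h2, pow_one]
    · intro l _ hl
      have h2 : μ (Sum.inr (Sum.inl j)) l = 0 := if_neg hl
      rw [h2, pow_zero]
    · intro h
      exact absurd (Finset.mem_univ _) h
  have hHq : ∀ j θ, (∏ l, W θ l ^ μ (Sum.inr (Sum.inr j)) l) *
      hI σ κ k g c a T al (Sum.inr (Sum.inr j)) (W θ) = W θ (Fin.castAdd (n + 1) j) ^ 2 +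
      σ (κ j.succ) * W θ (Fin.castAdd (n + 1) j) + 1 := by
    intro j θ
    have h1 : ∏ l, W θ l ^ μ (Sum.inr (Sum.inr j)) l = 1 :=
      Finset.prod_eq_one fun l _ => pow_zero _
    rw [h1, one_mul]
    rfl
  set h : Idx w s → (Fin (s + (n + 1)) → ℝ) → ℂ := fun i θ =>
    match i with
    | Sum.inl e => MvPolynomial.eval₂ σ (X θ) (afct g w c a e)
    | Sum.inr (Sum.inl j) => W θ (Fin.castAdd (n + 1) j)
    | Sum.inr (Sum.inr j) => (W θ (Fin.castAdd (n + 1) j) ^ 2 +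
      σ (κ j.succ) * W θ (Fin.castAdd (n + 1) j) + 1)⁻¹ with hh
  have hgq : ∀ j, Good fun θ => W θ (Fin.castAdd (n + 1) j) ^ 2 +
      σ (κ j.succ) * W θ (Fin.castAdd (n + 1) j) + 1 := by
    intro j
    have h1 := hWg (Sum.inr (Sum.inr j))
    simp only [hHq] at h1
    exact h1
  have hgd : ∀ i, Good (h i) := by
    intro i
    rcases i with e | j | j
    · have h1 := hWg (Sum.inl e)
      simp only [hHe] at h1
      exact h1
    · have h1 := hWg (Sum.inr (Sum.inl j))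
      simp only [hHz] at h1
      exact h1
    · exact good_inv (hgq j)
  have hlogH : ∀ i θ, |Real.log ‖h i θ‖| ≤ C1 := by
    intro i θ
    rcases i with e | j | j
    · have h1 := (hWest (Sum.inl e) θ).1
      rw [hHe] at h1
      exact h1
    · have h1 := (hWest (Sum.inr (Sum.inl j)) θ).1
      rw [hHz] at h1
      exact h1
    · have h1 := (hWest (Sum.inr (Sum.inr j)) θ).1
      rw [hHq] at h1
      show |Real.log ‖(W θ (Fin.castAdd (n + 1) j) ^ 2 +
        σ (κ j.succ) * W θ (Fin.castAdd (n + 1) j) + 1)⁻¹‖| ≤ C1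
      rw [norm_inv, Real.log_inv, abs_neg]
      exact h1
  have hlwH : ∀ i θ j, ‖lw (h i) j θ - 2 * Real.pi * Complex.I * (μ i j : ℝ)‖ ≤ δ0 := by
    intro i θ j
    rcases i with e | i | i
    · have h1 := (hWest (Sum.inl e) θ).2 j
      simp only [hHe] at h1
      exact h1
    · have h1 := (hWest (Sum.inr (Sum.inl i)) θ).2 j
      simp only [hHz] at h1
      exact h1
    · have h1 := (hWest (Sum.inr (Sum.inr i)) θ).2 j
      simp only [hHq] at h1
      have h0 : (μ (Sum.inr (Sum.inr i)) j : ℝ) = 0 := by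
        have : μ (Sum.inr (Sum.inr i)) j = 0 := rfl
        rw [this, Nat.cast_zero]
      rw [h0, Complex.ofReal_zero, mul_zero, sub_zero] at h1 ⊢
      have h2 := lw_inv (hgq i) j θ
      have h3 : lw (h (Sum.inr (Sum.inr i))) j θ =
          - lw (fun θ => W θ (Fin.castAdd (n + 1) i) ^ 2 +
            σ (κ i.succ) * W θ (Fin.castAdd (n + 1) i) + 1) j θ := h2
      rw [h3, norm_neg]
      exact h1
  -- the function `F0`
  set F0 : (Fin (s + (n + 1)) → ℝ) → ℂ := fun θ => ∏ i, h i θ with hF0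
  have hF0g : Good F0 := good_prod Finset.univ hgd
  have hlogF0 : ∀ θ, |Real.log ‖F0 θ‖| ≤ n1 * C1 := by
    intro θ
    simp only [hF0]
    rw [norm_prod, Real.log_prod fun e _ => norm_ne_zero_iff.2 ((hgd e).ne_zero θ)]
    refine (Finset.abs_sum_le_sum_abs _ _).trans ?_
    refine (Finset.sum_le_sum fun e _ => hlogH e θ).trans ?_
    rw [Finset.sum_const, Finset.card_univ, nsmul_eq_mul]
  have hlwF0 : ∀ j θ, ‖lw F0 j θ - 2 * Real.pi * Complex.I * (W0 j : ℝ)‖ ≤ n1 * δ0 := by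
    intro j θ
    have h1 : lw F0 j θ = ∑ i, lw (h i) j θ := lw_prod Finset.univ hgd j θ
    have h3 : (2 * Real.pi * Complex.I * ((W0 j : ℝ) : ℂ) : ℂ) =
        ∑ i, 2 * Real.pi * Complex.I * ((μ i j : ℝ) : ℂ) := by
      rw [← Finset.mul_sum, hW0, Complex.ofReal_sum]
    rw [h1, h3, ← Finset.sum_sub_distrib]
    refine (norm_sum_le _ _).trans ?_
    refine (Finset.sum_le_sum fun e _ => hlwH e θ j).trans ?_
    rw [Finset.sum_const, Finset.card_univ, nsmul_eq_mul]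
  have hpi := Real.pi_pos
  have h2pi : ‖(2 * Real.pi * Complex.I : ℂ)‖ = 2 * Real.pi := by
    rw [norm_mul, norm_mul, Complex.norm_I, Complex.norm_real, Complex.norm_ofNat, mul_one,
      Real.norm_eq_abs, abs_of_pos Real.pi_pos]
  set E0 : ℝ := ∑ j, 2 * Real.pi * |W0 j| + n1 * δ0 with hE0
  have hE00 : 0 ≤ E0 := add_nonneg (Finset.sum_nonneg fun j _ => by positivity) (by positivity)
  have hnlwF0 : ∀ j θ, ‖lw F0 j θ‖ ≤ E0 := by
    intro j θ
    have h1 := norm_sub_norm_le (lw F0 j θ) (2 * Real.pi * Complex.I * ((W0 j : ℝ) : ℂ))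
    have h3 := hlwF0 j θ
    rw [norm_mul, h2pi, Complex.norm_real, Real.norm_eq_abs] at h1
    have h4 : 2 * Real.pi * |W0 j| ≤ ∑ j, 2 * Real.pi * |W0 j| :=
      Finset.single_le_sum (f := fun j => 2 * Real.pi * |W0 j|) (fun j _ => by positivity)
        (Finset.mem_univ j)
    rw [hE0]
    linarith
  obtain ⟨Λ, hΛ1, hΛ⟩ := exists_root hF0g (mul_nonneg hn0 hC1) hE00 hlogF0 hnlwF0 (σ (κ 0)) hδ0pos
  set M : ℝ := C1 / δ0 + 1 with hM
  have hM1 : 0 ≤ C1 / δ0 := by positivity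
  refine ⟨Λ + Real.exp M, by linarith [Real.exp_pos M], fun lam hlam => ?_⟩
  have hln : 0 < ‖σ lam‖ := by linarith [Real.exp_pos M]
  have hl0 : σ lam ≠ 0 := norm_pos_iff.1 hln
  set q : ℝ := Real.log ‖σ lam‖ with hqdef
  have hqM : M ≤ q := by
    rw [hqdef, Real.le_log_iff_exp_le hln]
    linarith
  have hqpos : 0 < q := by linarith
  have hCq : C1 ≤ δ0 * q := by
    have h1 : C1 / δ0 ≤ q := by linarith
    rw [div_le_iff₀ hδ0pos] at h1
    linarith
  obtain ⟨hF4, hzg, hzlog, hzlw⟩ := hΛ (σ lam) (by linarith [Real.exp_pos M])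
  -- the points
  set Z : (Fin (s + (n + 1)) → ℝ) → (Fin (s + 1) → ℂ) := fun θ =>
    Fin.cons (zeta (σ lam * F0 θ - σ (κ 0))) fun j => W θ (Fin.castAdd (n + 1) j) with hZdef
  set p : (Fin (s + (n + 1)) → ℝ) → (Fin (s + 1) ⊕ Fin (n + 1) → ℂ) := fun θ =>
    Sum.elim (Z θ) (X θ) with hpdef
  have hWk : ∀ k, ContDiff ℝ 2 fun θ => W θ k := fun k => contDiff_pi.1 hWc k
  have hVc : ContDiff ℝ 2 V := contDiff_pi.2 fun l => hWk _
  have hmch : ContDiff ℝ 2 fun θ => mch k (V θ) := by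
    refine contDiff_pi.2 fun j => ?_
    unfold mch
    exact contDiff_prod fun l _ => (contDiff_pi.1 hVc l).pow _
  have hXc : ContDiff ℝ 2 X := by
    refine contDiff_pi.2 fun j => ?_
    have h1 : ∀ p : MvPolynomial (Fin (n + 1)) ℂ, ContDiff ℝ 2
        fun θ => MvPolynomial.eval (mch k (V θ)) p := by
      intro p
      induction p using MvPolynomial.induction_on with
      | C c => simpa using contDiff_const
      | add p q hp hq => simpa using hp.add hq
      | mul_X p k hp => simpa using hp.mul (contDiff_pi.1 hmch k)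
    exact h1 (x j)
  have hpc : ContDiff ℝ 2 p := by
    refine contDiff_pi.2 fun k => ?_
    rcases k with j | k
    · refine Fin.cases ?_ (fun j => ?_) j
      · exact hzg.smooth
      · exact hWk _
    · exact contDiff_pi.1 hXc k
  have hVp : ∀ θ i, V (θ + Pi.single i 1) = V θ := fun θ i => by simp only [hV, hWp]
  have hXp : ∀ θ i, X (θ + Pi.single i 1) = X θ := fun θ i => by simp only [hXdef, hVp]
  have hFp : ∀ θ i, F0 (θ + Pi.single i 1) = F0 θ := by
    intro θ i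
    simp only [hF0]
    refine Finset.prod_congr rfl fun k _ => ?_
    rcases k with e | j | j <;> simp only [hh, hWp, hXp]
  have hpp : ∀ θ i, p (θ + Pi.single i 1) = p θ := by
    intro θ i
    simp only [hpdef, hZdef, hXp, hWp, hFp]
  have hfac0 : ∀ θ j, W θ (Fin.castAdd (n + 1) j) ^ 2 +
      σ (κ j.succ) * W θ (Fin.castAdd (n + 1) j) + 1 ≠ 0 := fun θ j => (hgq j).ne_zero θ
  have hw0 : ∀ θ j, W θ (Fin.castAdd (n + 1) j) ≠ 0 := fun θ j =>
    (hgd (Sum.inr (Sum.inl j))).ne_zero θ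
  have hl00 : ∀ θ e, MvPolynomial.eval₂ σ (X θ) (afct g w c a e) ≠ 0 := fun θ e =>
    (hgd (Sum.inl e)).ne_zero θ
  have hP0 : ∀ θ, MvPolynomial.eval₂ σ (X θ) (aP g w c a) ≠ 0 := by
    intro θ
    rw [eval_aP]
    exact Finset.prod_ne_zero_iff.2 fun e _ => hl00 θ e
  have hzeta0 : ∀ θ, zeta (σ lam * F0 θ - σ (κ 0)) ≠ 0 := fun θ => hzg.ne_zero θ
  have hFprod : ∀ θ, F0 θ * ∏ j : Fin s, (W θ (Fin.castAdd (n + 1) j) ^ 2 +
      σ (κ j.succ) * W θ (Fin.castAdd (n + 1) j) + 1) =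
      MvPolynomial.eval₂ σ (X θ) (aP g w c a) * ∏ j : Fin s, W θ (Fin.castAdd (n + 1) j) := by
    intro θ
    have h1 : F0 θ = MvPolynomial.eval₂ σ (X θ) (aP g w c a) *
        ((∏ j : Fin s, W θ (Fin.castAdd (n + 1) j)) *
        ∏ j : Fin s, (W θ (Fin.castAdd (n + 1) j) ^ 2 +
          σ (κ j.succ) * W θ (Fin.castAdd (n + 1) j) + 1)⁻¹) := by
      simp only [hF0]
      rw [Fintype.prod_sum_type, Fintype.prod_sum_type, eval_aP]
    rw [h1, Finset.prod_inv_distrib]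
    have h2 : ∏ j : Fin s, (W θ (Fin.castAdd (n + 1) j) ^ 2 +
        σ (κ j.succ) * W θ (Fin.castAdd (n + 1) j) + 1) ≠ 0 :=
      Finset.prod_ne_zero_iff.2 fun j _ => hfac0 θ j
    have h3 : ∀ A w P : ℂ, P ≠ 0 → (A * (w * P⁻¹)) * P = A * w := by
      intro A w P hP
      field_simp
    exact h3 _ _ _ h2
  have hPt : ∀ θ, FPt σ (aP g w c a) lam κ (p θ) := by
    intro θ
    have hinr : (fun j => p θ (Sum.inr j)) = X θ := rfl
    constructor
    · have e1 : ∏ j, (p θ (Sum.inl j) ^ 2 + σ (κ j) * p θ (Sum.inl j) + 1) =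
          (zeta (σ lam * F0 θ - σ (κ 0)) ^ 2 + σ (κ 0) * zeta (σ lam * F0 θ - σ (κ 0)) + 1) *
          ∏ j : Fin s, (W θ (Fin.castAdd (n + 1) j) ^ 2 +
            σ (κ j.succ) * W θ (Fin.castAdd (n + 1) j) + 1) := Fin.prod_univ_succ _
      have e2 : ∏ j, p θ (Sum.inl j) =
          zeta (σ lam * F0 θ - σ (κ 0)) * ∏ j : Fin s, W θ (Fin.castAdd (n + 1) j) :=
        Fin.prod_univ_succ _
      rw [eval_feqn, e1, e2, hinr]
      have h1 := zeta_eq (w := σ lam * F0 θ - σ (κ 0)) (by linarith [hF4 θ])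
      have h2 := hFprod θ
      linear_combination (∏ j : Fin s, (W θ (Fin.castAdd (n + 1) j) ^ 2 +
        σ (κ j.succ) * W θ (Fin.castAdd (n + 1) j) + 1)) * h1 +
        σ lam * zeta (σ lam * F0 θ - σ (κ 0)) * h2
    · rw [MvPolynomial.eval₂_mul, eval_fPhi, eval_zmon, hinr]
      refine mul_ne_zero (mul_ne_zero hl0 (hP0 θ))
        (Finset.prod_ne_zero_iff.2 fun j _ => ?_)
      refine Fin.cases ?_ (fun j => ?_) j
      · exact hzeta0 θ
      · exact hw0 θ j
  have hlog0 : ∀ i θ, |Real.log ‖h i θ‖ / q - 0| ≤ ε := by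
    intro i θ
    rw [sub_zero, abs_div, abs_of_pos hqpos, div_le_iff₀ hqpos]
    exact ((hlogH i θ).trans hCq).trans (mul_le_mul_of_nonneg_right hδε1 hqpos.le)
  refine ⟨mkF p hpc hpp hPt, fun θ x => (hPt θ).evA_fcst x, ⟨fun θ => ?_, fun j θ => ?_⟩,
    fun j => ⟨fun θ => ?_, fun i θ => ?_⟩, fun e => ⟨fun θ => ?_, fun i θ => ?_⟩⟩
  · rw [mkF_fz, Fin.cons_zero]
    exact (hzlog θ).trans hδε1
  · rw [mkF_fz, Fin.cons_succ]
    have h1 := hzlw j θ
    have h2 := hlwF0 j θ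
    have h3 : lw (fun θ => zeta (σ lam * F0 θ - σ (κ 0))) j θ -
        2 * Real.pi * Complex.I * ((W0 j : ℝ) : ℂ) =
        (lw (fun θ => zeta (σ lam * F0 θ - σ (κ 0))) j θ - lw F0 j θ) +
        (lw F0 j θ - 2 * Real.pi * Complex.I * ((W0 j : ℝ) : ℂ)) := by ring
    change ‖lw (fun θ => zeta (σ lam * F0 θ - σ (κ 0))) j θ -
        2 * Real.pi * Complex.I * ((W0 j : ℝ) : ℂ)‖ ≤ ε
    rw [h3]
    refine (norm_add_le _ _).trans ?_
    linarith
  · rw [mkF_fz, Fin.cons_zero]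
    exact hlog0 (Sum.inr (Sum.inl j)) θ
  · rw [mkF_fz, Fin.cons_succ]
    have h1 := hlwH (Sum.inr (Sum.inl j)) θ i
    have h2 : ((μ (Sum.inr (Sum.inl j)) i : ℕ) : ℝ) =
        if i = Fin.castAdd (n + 1) j then 1 else 0 := by
      have h3 : μ (Sum.inr (Sum.inl j)) i = if i = Fin.castAdd (n + 1) j then 1 else 0 := rfl
      rw [h3]
      push_cast
      rfl
    rw [h2] at h1
    exact h1.trans hδε1
  · rw [coe_fl, mkF_rename, Fin.cons_zero]
    exact hlog0 (Sum.inl (some ⟨e, 0⟩)) θ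
  · rw [coe_fl, mkF_rename, Fin.cons_succ]
    have h1 := hlwH (Sum.inl (some ⟨e, 0⟩)) θ i
    have h2 : ((μ (Sum.inl (some ⟨e, 0⟩)) i : ℕ) : ℝ) =
        (Fin.append (fun _ : Fin s => 0)
          fun l => ((nex k (fun i => lo c a T e i) l : ℕ) : ℝ) : Fin (s + (n + 1)) → ℝ) i := by
      have h3 : μ (Sum.inl (some ⟨e, 0⟩)) =
          Fin.append (fun _ : Fin s => 0) fun l => nex k (fun i => lo c a T e i) l := by
        have h4 : al (some ⟨e, 0⟩) = lo c a T e := hals ⟨e, 0⟩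
        rw [← h4]
        rfl
      rw [h3]
      refine Fin.addCases (fun i => ?_) (fun i => ?_) i
      · rw [Fin.append_left, Fin.append_left, Nat.cast_zero]
      · rw [Fin.append_right, Fin.append_right]
    rw [h2] at h1
    exact h1.trans hδε1

end main

end Pool.Agent.T6.H69.AF
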