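import Pool.Agent.T6.H69.AF.TorA
set_option autoImplicit false

/-!
The tori near the vertices of the arrangement on the hypersurfaces `λ g ∏_e L_e ^ (w_e + 1) = 1`.
-/

namespace Pool.Agent.T6.H69.AF

open Pool.Agent.TH826.MK hiding fx

open Pool.Agent.TH826.GA (cm vtx al be lf be_T)

open Pool.Agent.TH577.UA (Distinct mmon mrow yrow det_yrow exists_points top_T)

open Pool.Agent.Y797.TW (IsLow hh mch nex ex exists_rapid eval_mch hh_zero contDiff_hh wcc
  prod_wcc wcc_zero contDiff_wcc)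

open MvPolynomial (bind₁ map)

section main

variable {K : Type*} [Field K] {n m : ℕ} {g : MvPolynomial (Fin (n + 1)) K}
  {w : Fin (m + 1) → ℕ} {c : Fin (m + 1) → Fin (n + 1) → K} {a : Fin (m + 1) → K}

theorem exists_near_zero (σ : K →+* ℂ) (κ : Fin 0 → K) {T : Fin (n + 1) → Fin (m + 1)}
    (hT : (cm c T).det ≠ 0) (hD : Distinct c a) (hg : g ≠ 0) :
    ∃ (k : Fin (n + 1) → ℕ) (Q : ℕ) (N : Fin n → ℕ), 0 < Q ∧ ∀ ε : ℝ, 0 < ε → ∃ Λ : ℝ, 1 < Λ ∧
      ∀ lam : K, Λ ≤ ‖σ lam‖ → ∃ Γ : Torus (FOpen (aP g w c a) lam κ) n,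
        (∀ θ x, Γ.e θ (fcst (aP g w c a) lam κ x) = σ x) ∧
        ∀ e, Near Γ (-Real.log ‖σ lam‖) ε (fl g w c a lam κ e)
          (mrow Q N (nex k fun i => lo c a T e i)) := by
  classical
  obtain ⟨al, hal, hals⟩ := exists_lows (a := a) σ hT hD hg w
  set D0 : ℕ := ∑ e, ∑ j, al e j with hD0
  have hDb : ∀ e j, al e j ≤ D0 := fun e j =>
    (Finset.single_le_sum (f := fun j => al e j) (fun _ _ => Nat.zero_le _)
      (Finset.mem_univ j)).trans
    (Finset.single_le_sum (f := fun e => ∑ j, al e j) (fun _ _ => Nat.zero_le _)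
      (Finset.mem_univ e))
  obtain ⟨k, hk⟩ := exists_rapid D0 (n + 1)
  set x := xc σ c a T with hx
  set μ : Option ((e : Fin (m + 1)) × Fin (w e + 1)) → Fin (n + 1) → ℕ :=
    fun e => nex k fun i => al e i with hμdef
  set Q : ℕ := ∑ e, μ e 0 with hQ
  set N : Fin n → ℕ := fun k => ∑ e, μ e k.succ with hN
  have hT0 : al (some ⟨T 0, 0⟩) = Finsupp.single 0 1 := by
    have h1 : al (some ⟨T 0, 0⟩) = lo c a T (T 0) := hals ⟨T 0, 0⟩
    rw [h1]
    unfold lo
    rw [if_pos (be_T T hT 0), top_T hT]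
  have hQ0 : 0 < Q := by
    refine lt_of_lt_of_le one_pos (le_trans ?_ (Finset.single_le_sum (f := fun e => μ e 0)
      (fun _ _ => Nat.zero_le _) (Finset.mem_univ (some ⟨T 0, 0⟩))))
    simp only [hμdef]
    rw [hT0]
    unfold nex
    refine le_trans ?_ (Finset.single_le_sum (f := fun j =>
      (Finsupp.single (0 : Fin (n + 1)) 1) j * ex k j 0) (fun _ _ => Nat.zero_le _)
      (Finset.mem_univ 0))
    simp [ex]
  refine ⟨k, Q, N, hQ0, fun ε hε => ?_⟩
  obtain ⟨η0, hη0, hX⟩ := exists_points (q := Q) (N := N)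
    (H := fun e u => MvPolynomial.eval (mch k (wcc u)) (bind₁ x (map σ (afct g w c a e))))
    (h := fun e u => hh k (bind₁ x (map σ (afct g w c a e))) (al e) (wcc u))
    (μ := μ)
    (fun e u => by
      rw [eval_mch hk (hal e) (hDb e), prod_wcc])
    (fun e => (contDiff_hh k _ _).comp contDiff_wcc)
    (fun e => by
      rw [wcc_zero]
      exact hh_zero hk (hal e) (hDb e))
    rfl hQ0 (fun k => rfl) hε
  have hinvpos : 0 < 1 / η0 := by positivity
  refine ⟨1 / η0 + 2, by linarith, fun lam hlam => ?_⟩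
  have hln : 0 < ‖σ lam‖ := by linarith
  have hl0 : σ lam ≠ 0 := norm_pos_iff.1 hln
  have hη : ‖(σ lam)⁻¹‖ < η0 := by
    rw [norm_inv, inv_lt_comm₀ hln hη0, ← one_div]
    linarith
  obtain ⟨hlog, U, hUc, hUp, hUe, hUg, hUest⟩ := hX _ (inv_ne_zero hl0) hη
  have hlogeq : Real.log ‖(σ lam)⁻¹‖ = -Real.log ‖σ lam‖ := by rw [norm_inv, Real.log_inv]
  rw [hlogeq] at hlog hUest
  set X : (Fin n → ℝ) → (Fin (n + 1) → ℂ) := fun θ j =>
    MvPolynomial.eval (mch k (wcc (U θ))) (x j) with hXdef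
  have hval : ∀ (p : MvPolynomial (Fin (n + 1)) K) θ, MvPolynomial.eval₂ σ (X θ) p =
      MvPolynomial.eval (mch k (wcc (U θ))) (bind₁ x (map σ p)) := by
    intro p θ
    unfold MvPolynomial.eval
    rw [MvPolynomial.eval₂Hom_bind₁]
    show _ = MvPolynomial.eval₂ (RingHom.id ℂ) _ (map σ p)
    rw [MvPolynomial.eval₂_map, RingHom.id_comp]
    rfl
  have hmch : ContDiff ℂ 2 fun u : (Fin n → ℂ) × ℂ => mch k (wcc u) := by
    refine contDiff_pi.2 fun j => ?_
    unfold mch
    exact contDiff_prod fun l _ => (contDiff_pi.1 contDiff_wcc l).pow _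
  have hXc : ContDiff ℝ 2 X := by
    refine contDiff_pi.2 fun j => ?_
    have h1 : ∀ p : MvPolynomial (Fin (n + 1)) ℂ, ContDiff ℂ 2
        fun u : (Fin n → ℂ) × ℂ => MvPolynomial.eval (mch k (wcc u)) p := by
      intro p
      induction p using MvPolynomial.induction_on with
      | C c => simpa using contDiff_const
      | add p q hp hq => simpa using hp.add hq
      | mul_X p k hp => simpa using hp.mul (contDiff_pi.1 hmch k)
    exact ((h1 (x j)).restrict_scalars ℝ).comp hUc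
  have hXp : ∀ θ i, X (θ + Pi.single i 1) = X θ := fun θ i => by
    simp only [hXdef, hUp]
  set p : (Fin n → ℝ) → (Fin 0 ⊕ Fin (n + 1) → ℂ) := fun θ =>
    Sum.elim (fun j => j.elim0) (X θ) with hpdef
  have hpc : ContDiff ℝ 2 p := by
    refine contDiff_pi.2 fun k => ?_
    rcases k with j | k
    · exact j.elim0
    · exact contDiff_pi.1 hXc k
  have hpp : ∀ θ i, p (θ + Pi.single i 1) = p θ := by
    intro θ i
    simp only [hpdef, hXp]
  have hP1 : ∀ θ, σ lam * MvPolynomial.eval₂ σ (X θ) (aP g w c a) = 1 := by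
    intro θ
    have h1 := hUe θ
    simp only [← hval] at h1
    rw [eval_aP, h1]
    exact mul_inv_cancel₀ hl0
  have hPt : ∀ θ, FPt σ (aP g w c a) lam κ (p θ) := by
    intro θ
    have hinr : (fun j => p θ (Sum.inr j)) = X θ := rfl
    constructor
    · rw [eval_feqn, hinr, hP1, Finset.univ_eq_empty, Finset.prod_empty, Finset.prod_empty]
      ring
    · rw [MvPolynomial.eval₂_mul, eval_fPhi, eval_zmon, hinr, hP1, Finset.univ_eq_empty,
        Finset.prod_empty, mul_one]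
      exact one_ne_zero
  refine ⟨mkF p hpc hpp hPt, fun θ x => (hPt θ).evA_fcst x, fun e => ?_⟩
  have hest := fun θ => hUest (some ⟨e, 0⟩) θ
  have hμe : μ (some ⟨e, 0⟩) = nex k fun i => lo c a T e i := by
    have h4 : al (some ⟨e, 0⟩) = lo c a T e := hals ⟨e, 0⟩
    rw [← h4]
  rw [hμe] at hest
  simp only [← hval] at hest
  refine ⟨fun θ => ?_, fun j θ => ?_⟩
  · rw [coe_fl, mkF_rename]
    exact (hest θ).1
  · rw [coe_fl, mkF_rename]
    exact (hest θ).2 j

end main

end Pool.Agent.T6.H69.AF
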